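import Pool.Agent.Lib.MP_05cdf2_gt.C.Primes

/-!
MP_05cdf2_gt, stream (C), JOB C_PrimeC.

`b` a prime, `b % 4 = 3`, `a ≠ 0`, `a ∣ b * c + 1`. Then `m = (b-1)/2` is odd and
nonzero. Let `Q` be the product of the primes `q ∣ m` with `¬ q ∣ a` (all odd). `Q` and `a` are
coprime. Take an integer `x` with `x ≡ c mod a`, `x ≡ -1 mod Q` (`u a + v Q = 1`,
`x = - u a + v Q c`). It is coprime to `a*Q` (`c` is coprime to `a` as `a ∣ b c + 1`). Let `r` be a
prime `≡ x mod a * Q` (`prime_mod`).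
Claim: `(b-1)/2` and `r - 1` are coprime: a prime `q` dividing both is odd and `r ≡ 1 mod q`.
If `q ∣ a`, then `r ≡ c mod q`, and `b ≡ 1 mod q` (as `q ∣ (b-1)/2`), so
`0 ≡ b c + 1 ≡ c + 1 ≡ r + 1 ≡ 2 mod q`, impossible. If `q ∤ a` then `q ∣ Q`, so
`1 ≡ r ≡ -1 mod q`, impossible.
-/

set_option autoImplicit false
set_option linter.unusedSectionVars false
set_option linter.unusedVariables false

namespace Pool.Agent.Lib.MP_05cdf2_gt.C
open Matrix

theorem prime_c (a c : ℤ) (b : ℕ) (hb : b.Prime) (hb4 : b % 4 = 3) (ha : a ≠ 0)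
    (hac : a ∣ b * c + 1) :
    ∃ r : ℕ, r.Prime ∧ a ∣ (r : ℤ) - c ∧ Nat.Coprime ((b - 1) / 2) (r - 1) := by
  classical
  set m := (b - 1) / 2 with hm
  have hm2 : b = 2 * m + 1 := by omega
  have hmodd : m % 2 = 1 := by omega
  have hm0 : m ≠ 0 := by omega
  set S : Finset ℕ := m.primeFactors.filter (fun q => ¬ (q : ℤ) ∣ a) with hS
  set Q : ℤ := ∏ q ∈ S, (q : ℤ) with hQ
  have hQ0 : Q ≠ 0 := by
    rw [hQ, Finset.prod_ne_zero_iff]
    intro q hq
    exact_mod_cast (Nat.prime_of_mem_primeFactors (Finset.mem_filter.1 hq).1).ne_zero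
  have haQ : IsCoprime a Q := by
    refine IsCoprime.prod_right fun q hq => ?_
    have hq1 := Finset.mem_filter.1 hq
    have hqp := Nat.prime_iff_prime_int.1 (Nat.prime_of_mem_primeFactors hq1.1)
    exact ((Prime.coprime_iff_not_dvd hqp).2 hq1.2).symm
  obtain ⟨u, v, huv⟩ := haQ
  set x : ℤ := -(u * a) + v * Q * c with hx
  have hax : a ∣ x - c := by
    refine ⟨-(u * (1 + c)), ?_⟩
    have h1 : v * Q = 1 - u * a := by linarith
    rw [hx, h1]
    ring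
  have hQx : Q ∣ x + 1 := by
    refine ⟨v * (1 + c), ?_⟩
    have h1 : u * a = 1 - v * Q := by linarith
    rw [hx, h1]
    ring
  have hcop1 : IsCoprime a x := by
    obtain ⟨k, hk⟩ := hac
    obtain ⟨l, hl⟩ := hax
    refine ⟨k + b * l, -b, ?_⟩
    have h1 : x = c + a * l := by linarith
    rw [h1]
    linear_combination -hk
  have hcop2 : IsCoprime Q x := by
    obtain ⟨l, hl⟩ := hQx
    refine ⟨l, -1, ?_⟩
    linear_combination -hl
  obtain ⟨r, hr, -, hrx⟩ := prime_mod (a * Q) x (mul_ne_zero ha hQ0) (hcop1.mul_left hcop2) 0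
  have har : a ∣ (r : ℤ) - c := by
    have h1 : a ∣ (r : ℤ) - x := (dvd_mul_right a Q).trans hrx
    have h2 : (r : ℤ) - c = ((r : ℤ) - x) + (x - c) := by ring
    rw [h2]
    exact dvd_add h1 hax
  have hQr : Q ∣ (r : ℤ) + 1 := by
    have h1 : Q ∣ (r : ℤ) - x := (dvd_mul_left Q a).trans hrx
    have h2 : (r : ℤ) + 1 = ((r : ℤ) - x) + (x + 1) := by ring
    rw [h2]
    exact dvd_add h1 hQx
  refine ⟨r, hr, har, ?_⟩
  by_contra hcon
  obtain ⟨q, hq, hqm, hqr⟩ := Nat.Prime.not_coprime_iff_dvd.1 hcon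
  have hq2 : q ≠ 2 := by
    intro h
    rw [h] at hqm
    omega
  have hqr' : (q : ℤ) ∣ (r : ℤ) - 1 := by
    have h1 : ((r - 1 : ℕ) : ℤ) = (r : ℤ) - 1 := by
      have := hr.one_lt
      omega
    rw [← h1]
    exact_mod_cast hqr
  have hno : ¬ (q : ℤ) ∣ 2 := by
    intro h
    have h1 : q ∣ 2 := by exact_mod_cast h
    exact hq2 ((Nat.prime_dvd_prime_iff_eq hq Nat.prime_two).1 h1)
  by_cases hqa : (q : ℤ) ∣ a
  · apply hno
    have h1 : (q : ℤ) ∣ (b : ℤ) * c + 1 := hqa.trans hac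
    have h2 : (q : ℤ) ∣ (r : ℤ) - c := hqa.trans har
    have h3 : (q : ℤ) ∣ (b : ℤ) - 1 := by
      have h4 : (b : ℤ) - 1 = 2 * (m : ℤ) := by
        rw [hm2]
        push_cast
        ring
      rw [h4]
      exact dvd_mul_of_dvd_right (by exact_mod_cast hqm) _
    have h5 : (2 : ℤ) = ((b : ℤ) * c + 1) - ((b : ℤ) - 1) * c + ((r : ℤ) - c) - ((r : ℤ) - 1) := by ring
    rw [h5]
    exact dvd_sub (dvd_add (dvd_sub h1 (dvd_mul_of_dvd_left h3 _)) h2) hqr'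
  · apply hno
    have hqS : q ∈ S := Finset.mem_filter.2 ⟨Nat.mem_primeFactors.2 ⟨hq, hqm, hm0⟩, hqa⟩
    have h1 : (q : ℤ) ∣ Q := Finset.dvd_prod_of_mem (fun q : ℕ => (q : ℤ)) hqS
    have h2 : (q : ℤ) ∣ (r : ℤ) + 1 := h1.trans hQr
    have h5 : (2 : ℤ) = ((r : ℤ) + 1) - ((r : ℤ) - 1) := by ring
    rw [h5]
    exact dvd_sub h2 hqr'

end Pool.Agent.Lib.MP_05cdf2_gt.C
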