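import Pool.Agent.Lib.MP_05cdf2_gt.C.Pow
import Pool.Agent.Lib.MP_05cdf2_gt.C.PrimeC

/-!
MP_05cdf2_gt, stream (C), JOB C_Ck: the theorem of Carter and Keller for `SL_2(Z) ⊂ SL_3(Z)`:
every `B12 a b c d` with `a d - b c = 1` is a product of at most `250` elementary matrices.

1. (`ck_prime`) `b` a prime with `b % 4 = 3`, `c` a prime, `(b-1)/2` and `c - 1` coprime,
   `a d - b c = 1`: put `A = !![a, b; c, d]`, `n = (b-1)/2`, `m = c-1`. As `b ∤ a`, Fermat gives
   `a^(b-1) ≡ 1 mod b`, so `b ∣ (a^n - 1)(a^n + 1)`, so `a^n ≡ ±1 mod b` and `a^(n*u) ≡ ±1 mod b`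
   for all `u`. As `c ∤ a`, `a^(m*v) ≡ 1 mod c`. As `n, m` are coprime there are naturals `u, v`
   with `n*u = m*v + 1` or `m*v = n*u + 1` (Bezout with naturals; also when one of `n, m` is
   small). In the first case `A^(n*u) = A * A^(m*v)`, so `emb A = emb (A^(n*u)) *
   (emb (A^(m*v)))⁻¹`, where both factors are `EL 120` by `pow_el`, `pow_el'` (use `EL.inv` with the
   explicit inverse `emb` of the adjugate, or: `EL.inv` gives the inverse `Z` of `emb (A^(m*v))`,
   `BP.exists_inv`). The second case is similar. So `EL 240 (B12 a b c d)`.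
2. (`ck_odd`) `a` odd: by `prime_b` there is a prime `b' = b + t*a`, `b' % 4 = 3`; use `EL.colb`.
   Then `a*d' - b'*c = 1`, so `a ∣ b'*c + 1`, and by `prime_c` there is a prime `c' = c + s*a` with
   `(b'-1)/2`, `c'-1` coprime; use `EL.rowc`. So `EL 242`.
3. (`ck`) if `a` is even, then `b` is odd and `EL.cola` with `t = 1` replaces `a` by `a + b`.
-/

set_option autoImplicit false
set_option linter.unusedSectionVars false
set_option linter.unusedVariables false

namespace Pool.Agent.Lib.MP_05cdf2_gt.C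
open Matrix

theorem ck_prime (a d : ℤ) (b c : ℕ) (hb : b.Prime) (hb4 : b % 4 = 3) (hc : c.Prime)
    (hbc : Nat.Coprime ((b - 1) / 2) (c - 1)) (h : a * d - b * c = 1) :
    EL 240 (B12 a b c d) := by
  set n := (b - 1) / 2 with hn
  have hb2 : b - 1 = 2 * n := by omega
  have hn1 : 1 ≤ n := by omega
  have hc1 : 1 ≤ c - 1 := by
    have := hc.two_le
    omega
  obtain ⟨u, v, huv⟩ : ∃ u v : ℕ, n * u = (c - 1) * v + 1 := by
    rcases Nat.lt_or_ge 1 (c - 1) with h1 | h1
    · obtain ⟨u, -, hu⟩ := Nat.exists_mul_mod_eq_one_of_coprime hbc h1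
      refine ⟨u, n * u / (c - 1), ?_⟩
      have := Nat.div_add_mod (n * u) (c - 1)
      rw [hu] at this
      exact this.symm
    · have h2 : c - 1 = 1 := le_antisymm h1 hc1
      exact ⟨1, n - 1, by rw [h2]; omega⟩
  -- Fermat
  have hcopb : IsCoprime a (b : ℤ) := ⟨d, -(c : ℤ), by linarith⟩
  have hcopc : IsCoprime a (c : ℤ) := ⟨d, -(b : ℤ), by linarith⟩
  have hfb := (Int.ModEq.pow_card_sub_one_eq_one hb hcopb).symm.dvd
  have hfc := (Int.ModEq.pow_card_sub_one_eq_one hc hcopc).symm.dvd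
  have hnb : (b : ℤ) ∣ a ^ n - 1 ∨ (b : ℤ) ∣ a ^ n + 1 := by
    have h1 : a ^ (b - 1) - 1 = (a ^ n - 1) * (a ^ n + 1) := by
      rw [hb2, pow_mul']
      ring
    rw [h1] at hfb
    exact (Nat.prime_iff_prime_int.1 hb).dvd_or_dvd hfb
  have hbu : (b : ℤ) ∣ a ^ (n * u) - 1 ∨ (b : ℤ) ∣ a ^ (n * u) + 1 := by
    rcases hnb with h1 | h1
    · left
      rw [pow_mul]
      have h2 := sub_dvd_pow_sub_pow (a ^ n) 1 u
      rw [one_pow] at h2
      exact h1.trans h2
    · rw [pow_mul]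
      have h2 := sub_dvd_pow_sub_pow (a ^ n) (-1) u
      rw [sub_neg_eq_add] at h2
      have h3 := h1.trans h2
      rcases neg_one_pow_eq_or ℤ u with h4 | h4
      · left
        rwa [h4] at h3
      · right
        rwa [h4, sub_neg_eq_add] at h3
  have hcv : (c : ℤ) ∣ a ^ ((c - 1) * v) - 1 := by
    rw [pow_mul]
    have h2 := sub_dvd_pow_sub_pow (a ^ (c - 1)) 1 v
    rw [one_pow] at h2
    exact hfc.trans h2
  set A : Matrix (Fin 2) (Fin 2) ℤ := !![a, (b : ℤ); (c : ℤ), d] with hA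
  have h1 : EL 120 (emb (A ^ (n * u))) := pow_el a b c d h (n * u) hbu
  have h2 : EL 120 (emb (A ^ ((c - 1) * v))) := pow_el' a b c d h ((c - 1) * v) (Or.inl hcv)
  set A' : Matrix (Fin 2) (Fin 2) ℤ := !![d, -(b : ℤ); -(c : ℤ), a] with hA'
  have hAA : A' * A = 1 := by
    rw [hA, hA', Matrix.mul_fin_two, Matrix.one_fin_two]
    have e1 : d * a + -(b : ℤ) * c = 1 := by linarith
    have e2 : d * (b : ℤ) + -(b : ℤ) * d = 0 := by ring
    have e3 : -(c : ℤ) * a + a * c = 0 := by ring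
    have e4 : -(c : ℤ) * b + a * d = 1 := by linarith
    rw [e1, e2, e3, e4]
  have hinv : emb (A' ^ ((c - 1) * v)) * emb (A ^ ((c - 1) * v)) = 1 := by
    rw [← emb_mul, pow_mul_pow_eq_one _ hAA, emb_one]
  have h3 : EL 120 (emb (A' ^ ((c - 1) * v))) := h2.inv hinv
  have h4 : B12 a b c d = emb (A' ^ ((c - 1) * v)) * emb (A ^ (n * u)) := by
    rw [huv, pow_succ, emb_mul, ← mul_assoc, hinv, one_mul]
    rfl
  rw [h4]
  exact h3.mul h1

theorem ck_odd (a b c d : ℤ) (ha : Odd a) (h : a * d - b * c = 1) : EL 242 (B12 a b c d) := by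
  have ha0 : a ≠ 0 := by
    rintro rfl
    simp at ha
  obtain ⟨p, hp, hp4, t, ht⟩ := prime_b a b ha ⟨d, -c, by linarith⟩
  have hpt : (p : ℤ) = b + t * a := by linarith
  refine EL.colb t ?_
  rw [← hpt]
  have h1 : a * (d + t * c) - p * c = 1 := by
    rw [hpt]
    linarith
  obtain ⟨r, hr, ⟨s, hs⟩, hcop⟩ := prime_c a c p hp hp4 ha0 ⟨d + t * c, by linarith⟩
  have hrs : (r : ℤ) = c + s * a := by linarith
  refine EL.rowc s ?_
  rw [← hrs]
  refine ck_prime a (d + t * c + s * p) p r hp hp4 hr hcop ?_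
  rw [hrs]
  linarith

theorem ck (a b c d : ℤ) (h : a * d - b * c = 1) : EL 243 (B12 a b c d) := by
  rcases Int.even_or_odd a with ha | ha
  · have hb : Odd b := by
      rcases Int.even_or_odd b with hb | hb
      · exfalso
        have h1 : Even (a * d - b * c) := (ha.mul_right d).sub (hb.mul_right c)
        rw [h] at h1
        exact absurd h1 (by decide)
      · exact hb
    refine EL.cola 1 (ck_odd _ _ _ _ ?_ ?_)
    · rw [one_mul]
      exact ha.add_odd hb
    · linarith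
  · exact (ck_odd a b c d ha h).mono (by norm_num)

end Pool.Agent.Lib.MP_05cdf2_gt.C
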