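import Pool.Agent.Lib.MP_05cdf2_gt.C.Defs

/-!
MP_05cdf2_gt, stream (C), JOB C_SqNeg: `p` prime, `p % 4 = 3`, `p ∤ b`. Then `b` or `-b` is a square
mod `p` (`-1` is not a square: `ZMod.exists_sq_eq_neg_one_iff`; the product of two nonsquares in
`ZMod p` is a square: `quadraticChar`/`legendreSym`, e.g. `legendreSym.mul`, `legendreSym.at_neg_one`,
`ZMod.χ₄_nat_three_mod_four`, `legendreSym.eq_one_iff`). Lift the square root to an integer.
-/

set_option autoImplicit false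
set_option linter.unusedSectionVars false
set_option linter.unusedVariables false

namespace Pool.Agent.Lib.MP_05cdf2_gt.C
open Matrix

theorem sq_or_neg (p : ℕ) (hp : p.Prime) (hp4 : p % 4 = 3) (b : ℤ) (hb : ¬ (p : ℤ) ∣ b) :
    ∃ c : ℤ, (p : ℤ) ∣ b - c ^ 2 ∨ (p : ℤ) ∣ b + c ^ 2 := by
  have : Fact p.Prime := ⟨hp⟩
  have hb0 : (b : ZMod p) ≠ 0 := fun h => hb ((ZMod.intCast_zmod_eq_zero_iff_dvd b p).1 h)
  have hp2 : p ≠ 2 := by omega
  rcases legendreSym.eq_one_or_neg_one p hb0 with h | h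
  · obtain ⟨x, hx⟩ := (legendreSym.eq_one_iff p hb0).1 h
    obtain ⟨c, rfl⟩ := ZMod.intCast_surjective x
    refine ⟨c, Or.inl ((ZMod.intCast_zmod_eq_zero_iff_dvd _ p).1 ?_)⟩
    push_cast
    rw [hx]
    ring
  · have hnb0 : ((-b : ℤ) : ZMod p) ≠ 0 := by
      push_cast
      exact neg_ne_zero.2 hb0
    have h1 : legendreSym p (-b) = 1 := by
      have h2 : (-b : ℤ) = (-1) * b := by ring
      rw [h2, legendreSym.mul, h, legendreSym.at_neg_one hp2, ZMod.χ₄_nat_three_mod_four hp4]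
      norm_num
    obtain ⟨x, hx⟩ := (legendreSym.eq_one_iff p hnb0).1 h1
    obtain ⟨c, rfl⟩ := ZMod.intCast_surjective x
    refine ⟨c, Or.inr ((ZMod.intCast_zmod_eq_zero_iff_dvd _ p).1 ?_)⟩
    push_cast at hx ⊢
    have h3 : (b : ZMod p) = -((c : ZMod p) * (c : ZMod p)) := by
      rw [← hx]
      ring
    rw [h3]
    ring

end Pool.Agent.Lib.MP_05cdf2_gt.C
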