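import Pool.Agent.Lib.MP_05cdf2_gt.C.Long
import Pool.Agent.Lib.MP_05cdf2_gt.C.Ck
import Pool.Agent.Lib.MP_05cdf2_gt.C.SqNeg

/-!
MP_05cdf2_gt, stream (C), JOB C_LamGen: every `Lam 0 a b c d` of determinant one in `Sp_6(Z)` is
`UL 1480`.

By `ck` and `ul_long`: `UL (6*243+12 = 1470) (Lam 0 a (-b^2) (c^2) (d*(1-b*c)))` if `a d - b c = 1`.
1. `lam_sq`: `a d + b^2 c = 1` (any `c, d`): `UL 1471 (Lam 0 a (-b^2) c d)`. Indeed `a` and `b` are
   coprime, take `a d' - b c' = 1`; `Lam 0 a (-b^2) (c'^2) (d'(1-b c'))` is `UL 1470`, and the two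
   matrices have the same first row and determinant one, so they differ by a factor
   `LM (single 0 0 t)` on the left (`L_mul_lam`; `t = c*D - C*d` for `(C, D)` the old second row).
2. `lam_neg_sq`: `a d - b^2 c = 1`: `UL 1471 (Lam 0 a (b^2) c d)` by `lam_neg`.
3. `lam_prime`: `p` prime, `p % 4 = 3`, `p * d - b * c = 1`: by `sq_or_neg` there is `e` with
   `b = e^2 + t p` or `b = -e^2 + t p`; `lam_mul_U` with `-t`, so `UL 1472`.
4. `lam_gen`: if `b` is even then `a` is odd and `lam_mul_U` with `t = 1` makes `b` odd; then by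
   `prime_b` (with the roles of `a, b` exchanged) there is a prime `p = a + t b`, `p % 4 = 3`;
   `lam_mul_L`. So `UL 1474`.
   (In each step: `Lam ... = Lam ... * UM (single 0 0 (-t))`, `(single 0 0 t).IsSymm`.)
-/

set_option autoImplicit false
set_option linter.unusedSectionVars false
set_option linter.unusedVariables false

namespace Pool.Agent.Lib.MP_05cdf2_gt.C
open Matrix

private theorem LamGen_symm (t : ℤ) : (Matrix.single (0 : Fin 3) 0 t).IsSymm := by
  unfold Matrix.IsSymm
  rw [Matrix.transpose_single]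

private theorem LamGen_U {k : ℕ} (a b c d t : ℤ)
    (h : UL k (Lam (0 : Fin 3) a (b + t * a) c (d + t * c))) :
    UL (k + 1) (Lam (0 : Fin 3) a b c d) := by
  have h1 := UL.mul h (ul_U (LamGen_symm (-t)))
  rw [lam_mul_U] at h1
  have e1 : b + t * a + -t * a = b := by ring
  have e2 : d + t * c + -t * c = d := by ring
  rw [e1, e2] at h1
  exact h1

private theorem LamGen_L {k : ℕ} (a b c d t : ℤ)
    (h : UL k (Lam (0 : Fin 3) (a + t * b) b (c + t * d) d)) :
    UL (k + 1) (Lam (0 : Fin 3) a b c d) := by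
  have h1 := UL.mul h (ul_L (LamGen_symm (-t)))
  rw [lam_mul_L] at h1
  have e1 : a + t * b + -t * b = a := by ring
  have e2 : c + t * d + -t * d = c := by ring
  rw [e1, e2] at h1
  exact h1

private theorem LamGen_L' {k : ℕ} (a b c d t : ℤ)
    (h : UL k (Lam (0 : Fin 3) a b (c + t * a) (d + t * b))) :
    UL (1 + k) (Lam (0 : Fin 3) a b c d) := by
  have h1 := UL.mul (ul_L (LamGen_symm (-t))) h
  rw [L_mul_lam] at h1
  have e1 : c + t * a + -t * a = c := by ring
  have e2 : d + t * b + -t * b = d := by ring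
  rw [e1, e2] at h1
  exact h1

theorem lam_sq (a b c d : ℤ) (h : a * d + b ^ 2 * c = 1) :
    UL 1471 (Lam (0 : Fin 3) a (-b ^ 2) c d) := by
  have h1 : a * d - b * (-(b * c)) = 1 := by linear_combination h
  have h2 := ul_long a b (-(b * c)) d h1 (ck a b (-(b * c)) d h1)
  refine UL.mono (LamGen_L' (k := 6 * 243 + 12) a (-b ^ 2) c d (-(c * d)) ?_) (by norm_num)
  have e1 : c + -(c * d) * a = (-(b * c)) ^ 2 := by linear_combination -c * h
  have e2 : d + -(c * d) * -b ^ 2 = d * (1 - b * -(b * c)) := by ring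
  rw [e1, e2]
  exact h2

theorem lam_neg_sq (a b c d : ℤ) (h : a * d - b ^ 2 * c = 1) :
    UL 1471 (Lam (0 : Fin 3) a (b ^ 2) c d) := by
  have h1 := lam_neg (lam_sq a b (-c) d (by linear_combination h))
  rw [neg_neg, neg_neg] at h1
  exact h1

theorem lam_prime (p : ℕ) (hp : p.Prime) (hp4 : p % 4 = 3) (b c d : ℤ)
    (h : p * d - b * c = 1) : UL 1472 (Lam (0 : Fin 3) p b c d) := by
  have hb : ¬ (p : ℤ) ∣ b := by
    rintro ⟨s, hs⟩
    have h1 : (p : ℤ) ∣ 1 := ⟨d - s * c, by rw [← h, hs]; ring⟩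
    have h2 : p ∣ 1 := by exact_mod_cast h1
    exact hp.one_lt.ne' (Nat.dvd_one.mp h2)
  obtain ⟨e, ⟨s, hs⟩ | ⟨s, hs⟩⟩ := sq_or_neg p hp hp4 b hb
  · refine LamGen_U (p : ℤ) b c d (-s) ?_
    have e1 : b + -s * p = e ^ 2 := by linear_combination hs
    rw [e1]
    exact lam_neg_sq p e c (d + -s * c) (by linear_combination h + c * hs)
  · refine LamGen_U (p : ℤ) b c d (-s) ?_
    have e1 : b + -s * p = -e ^ 2 := by linear_combination hs
    rw [e1]
    exact lam_sq p e c (d + -s * c) (by linear_combination h + c * hs)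

private theorem LamGen_odd (a b c d : ℤ) (hb : Odd b) (h : a * d - b * c = 1) :
    UL 1473 (Lam (0 : Fin 3) a b c d) := by
  obtain ⟨p, hp, hp4, t, ht⟩ := prime_b b a hb ⟨-c, d, by linear_combination h⟩
  refine LamGen_L a b c d t ?_
  have e1 : a + t * b = (p : ℤ) := by linear_combination -ht
  rw [e1]
  exact lam_prime p hp hp4 b (c + t * d) d (by linear_combination h + d * ht)

theorem lam_gen (a b c d : ℤ) (h : a * d - b * c = 1) :
    UL 1480 (Lam (0 : Fin 3) a b c d) := by
  rcases Int.even_or_odd b with hb | hb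
  · have ha : Odd a := by
      by_contra ha
      rw [Int.not_odd_iff_even] at ha
      have h1 : Even (a * d - b * c) := (ha.mul_right d).sub (hb.mul_right c)
      rw [h] at h1
      exact absurd h1 (by decide)
    refine UL.mono (LamGen_U a b c d 1 (LamGen_odd a (b + 1 * a) c (d + 1 * c) ?_ ?_)) (by norm_num)
    · rw [one_mul]; exact hb.add_odd ha
    · linear_combination h
  · exact UL.mono (LamGen_odd a b c d hb h) (by norm_num)

end Pool.Agent.Lib.MP_05cdf2_gt.C
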