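import Pool.Agent.Lib.MP_05cdf2_gt.C.Red
import Pool.Agent.Lib.MP_05cdf2_gt.C.LamGen

/-!
MP_05cdf2_gt, stream (C), JOB C_Big: all of `Sp_{2g}(Z)`, `g ≥ 3`, is `UL K`.

1. `ext M` for `M : Matrix (Fin 3 ⊕ Fin 3) (Fin 3 ⊕ Fin 3) ℤ`: the matrix
   `fromBlocks (fromBlocks M11 0 0 1) (fromBlocks M12 0 0 0) (fromBlocks M21 0 0 0)
   (fromBlocks M22 0 0 1)` over `(Fin 3 ⊕ Fin h) ⊕ (Fin 3 ⊕ Fin h)`; it is multiplicative, maps `1` to
   `1`, `UM S` to `UM (fromBlocks S 0 0 0)`, `LM S` to `LM (fromBlocks S 0 0 0)` and `Lam 0` to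
   `Lam (inl 0)`. `BP.map` with `c = 1` and `lam_gen` give `lam_big`.
2. `ul_big`: `red_all` with `i0 = inl 0`: `M * R = Lam ..`, `M = Lam .. * R⁻¹`, `UL.inv`. (`R` is
   invertible with inverse `Z`: `BP.exists_inv`, or `UL.mem`.)
3. `ul_all`: transport along an equivalence `e : n ≃ Fin 3 ⊕ Fin h` (`Fintype.equivOfCardEq`):
   `Matrix.reindex (e.sumCongr e) (e.sumCongr e)` is multiplicative, maps `symplecticGroup` to
   `symplecticGroup`, `UM S` to `UM (reindex e e S)`, ... .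
-/

set_option autoImplicit false
set_option linter.unusedSectionVars false
set_option linter.unusedVariables false

namespace Pool.Agent.Lib.MP_05cdf2_gt.C
open Matrix

/-- the extension of a matrix by the identity -/
def Big_ext (h : ℕ) (M : Matrix (Fin 3 ⊕ Fin 3) (Fin 3 ⊕ Fin 3) ℤ) :
    Matrix ((Fin 3 ⊕ Fin h) ⊕ (Fin 3 ⊕ Fin h)) ((Fin 3 ⊕ Fin h) ⊕ (Fin 3 ⊕ Fin h)) ℤ :=
  fromBlocks (fromBlocks M.toBlocks₁₁ 0 0 1) (fromBlocks M.toBlocks₁₂ 0 0 0)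
    (fromBlocks M.toBlocks₂₁ 0 0 0) (fromBlocks M.toBlocks₂₂ 0 0 1)

theorem Big_ext_blocks (h : ℕ) (A B C D : Matrix (Fin 3) (Fin 3) ℤ) :
    Big_ext h (fromBlocks A B C D) = fromBlocks (fromBlocks A 0 0 1) (fromBlocks B 0 0 0)
      (fromBlocks C 0 0 0) (fromBlocks D 0 0 1) := by
  simp [Big_ext]

theorem Big_ext_mul (h : ℕ) (M N : Matrix (Fin 3 ⊕ Fin 3) (Fin 3 ⊕ Fin 3) ℤ) :
    Big_ext h (M * N) = Big_ext h M * Big_ext h N := by
  rw [← fromBlocks_toBlocks M, ← fromBlocks_toBlocks N, fromBlocks_multiply]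
  simp only [Big_ext_blocks, fromBlocks_multiply, fromBlocks_add]
  simp

theorem Big_ext_one (h : ℕ) : Big_ext h 1 = 1 := by
  rw [← fromBlocks_one, Big_ext_blocks]
  simp

theorem Big_ext_UM (h : ℕ) (S : Matrix (Fin 3) (Fin 3) ℤ) :
    Big_ext h (UM S) = UM (fromBlocks S 0 0 0) := by
  unfold UM
  rw [Big_ext_blocks]
  simp

theorem Big_ext_LM (h : ℕ) (S : Matrix (Fin 3) (Fin 3) ℤ) :
    Big_ext h (LM S) = LM (fromBlocks S 0 0 0) := by
  unfold LM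
  rw [Big_ext_blocks]
  simp

theorem Big_single (h : ℕ) (t : ℤ) :
    (fromBlocks (Matrix.single (0 : Fin 3) 0 t) 0 0 0 : Matrix (Fin 3 ⊕ Fin h) (Fin 3 ⊕ Fin h) ℤ)
      = Matrix.single (Sum.inl 0) (Sum.inl 0) t := by
  ext i j
  rcases i with i | i <;> rcases j with j | j <;> simp [Matrix.single_apply]

theorem Big_one_add_single (h : ℕ) (t : ℤ) :
    (fromBlocks (1 + Matrix.single (0 : Fin 3) 0 t) 0 0 1 : Matrix (Fin 3 ⊕ Fin h) (Fin 3 ⊕ Fin h) ℤ)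
      = 1 + Matrix.single (Sum.inl 0) (Sum.inl 0) t := by
  rw [← Big_single, ← fromBlocks_one, fromBlocks_add]
  simp

theorem Big_ext_Lam (h : ℕ) (a b c d : ℤ) :
    Big_ext h (Lam (0 : Fin 3) a b c d) = Lam (Sum.inl 0 : Fin 3 ⊕ Fin h) a b c d := by
  unfold Lam
  rw [Big_ext_blocks, Big_one_add_single, Big_one_add_single, Big_single, Big_single]

theorem Big_symm_ext (h : ℕ) (S : Matrix (Fin 3) (Fin 3) ℤ) (hS : S.IsSymm) :
    (fromBlocks S 0 0 0 : Matrix (Fin 3 ⊕ Fin h) (Fin 3 ⊕ Fin h) ℤ).IsSymm := by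
  unfold Matrix.IsSymm at *
  rw [fromBlocks_transpose, hS]
  simp

theorem lam_big (h : ℕ) (a b c d : ℤ) (hd : a * d - b * c = 1) :
    UL 1480 (Lam (Sum.inl 0 : Fin 3 ⊕ Fin h) a b c d) := by
  rw [← Big_ext_Lam]
  have h1 := lam_gen a b c d hd
  refine (BP.map (T := ULS (Fin 3 ⊕ Fin h)) (c := 1) (Big_ext h) (Big_ext_one h) (Big_ext_mul h)
    ?_ h1)
  rintro y ⟨S, hS, hy | hy⟩
  · rw [hy, Big_ext_UM]
    exact ul_U (Big_symm_ext h S hS)
  · rw [hy, Big_ext_LM]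
    exact ul_L (Big_symm_ext h S hS)

theorem Big_inv {n : Type*} [Fintype n] [DecidableEq n] {k : ℕ} {M : Matrix (n ⊕ n) (n ⊕ n) ℤ}
    (hM : UL k M) : ∃ Z, UL k Z ∧ M * Z = 1 ∧ Z * M = 1 := by
  refine BP.exists_inv ?_ hM
  rintro y ⟨S, hS, hy | hy⟩
  · refine ⟨UM (-S), ⟨-S, ?_, Or.inl rfl⟩, ?_, ?_⟩
    · exact hS.neg
    · rw [hy, UM_mul_UM, add_neg_cancel, UM_zero]
    · rw [hy, UM_mul_UM, neg_add_cancel, UM_zero]
  · refine ⟨LM (-S), ⟨-S, ?_, Or.inr rfl⟩, ?_, ?_⟩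
    · exact hS.neg
    · rw [hy, LM_mul_LM, add_neg_cancel, LM_zero]
    · rw [hy, LM_mul_LM, neg_add_cancel, LM_zero]

theorem ul_big (h : ℕ) (M : Matrix ((Fin 3 ⊕ Fin h) ⊕ (Fin 3 ⊕ Fin h)) ((Fin 3 ⊕ Fin h) ⊕ (Fin 3 ⊕ Fin h)) ℤ)
    (hM : M ∈ symplecticGroup (Fin 3 ⊕ Fin h) ℤ) : UL (1480 + 6 * (2 + h)) M := by
  obtain ⟨R, hR, a, b, c, d, hd, hMR⟩ := red_all (Sum.inl 0) M hM
  obtain ⟨Z, hZ, h1, h2⟩ := Big_inv hR
  have hcard : Fintype.card (Fin 3 ⊕ Fin h) - 1 = 2 + h := by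
    simp
  rw [hcard] at hZ
  have h3 : M = Lam (Sum.inl 0) a b c d * Z := by
    rw [← hMR, mul_assoc, h1, mul_one]
  rw [h3]
  exact (lam_big h a b c d hd).mul hZ

theorem Big_reindex_UM {n m : Type*} [Fintype n] [DecidableEq n] [Fintype m] [DecidableEq m]
    (e : n ≃ m) (S : Matrix n n ℤ) :
    (UM S).submatrix (e.sumCongr e).symm (e.sumCongr e).symm = UM (S.submatrix e.symm e.symm) := by
  ext i j
  rcases i with i | i <;> rcases j with j | j <;> simp [UM, Matrix.one_apply]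

theorem Big_reindex_LM {n m : Type*} [Fintype n] [DecidableEq n] [Fintype m] [DecidableEq m]
    (e : n ≃ m) (S : Matrix n n ℤ) :
    (LM S).submatrix (e.sumCongr e).symm (e.sumCongr e).symm = LM (S.submatrix e.symm e.symm) := by
  ext i j
  rcases i with i | i <;> rcases j with j | j <;> simp [LM, Matrix.one_apply]

theorem Big_reindex_J {n m : Type*} [Fintype n] [DecidableEq n] [Fintype m] [DecidableEq m]
    (e : n ≃ m) :
    (J n ℤ).submatrix (e.sumCongr e).symm (e.sumCongr e).symm = J m ℤ := by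
  ext i j
  rcases i with i | i <;> rcases j with j | j <;> simp [J, Matrix.one_apply]

theorem Big_reindex_mem {n m : Type*} [Fintype n] [DecidableEq n] [Fintype m] [DecidableEq m]
    (e : n ≃ m) (M : Matrix (n ⊕ n) (n ⊕ n) ℤ) (hM : M ∈ symplecticGroup n ℤ) :
    M.submatrix (e.sumCongr e).symm (e.sumCongr e).symm ∈ symplecticGroup m ℤ := by
  rw [SymplecticGroup.mem_iff] at hM ⊢
  rw [← Big_reindex_J e, transpose_submatrix, submatrix_mul_equiv, submatrix_mul_equiv, hM]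

theorem ul_all (n : Type*) [Fintype n] [DecidableEq n] (hn : 3 ≤ Fintype.card n) :
    ∃ K : ℕ, ∀ M ∈ symplecticGroup n ℤ, UL K M := by
  obtain ⟨h, hh⟩ : ∃ h, Fintype.card n = 3 + h := ⟨Fintype.card n - 3, by omega⟩
  have e : n ≃ (Fin 3 ⊕ Fin h) := Fintype.equivOfCardEq (by simp [hh])
  refine ⟨1480 + 6 * (2 + h), fun M hM => ?_⟩
  have h1 := ul_big h _ (Big_reindex_mem e M hM)
  have h2 := BP.map (T := ULS n) (c := 1)
    (fun N : Matrix ((Fin 3 ⊕ Fin h) ⊕ (Fin 3 ⊕ Fin h)) ((Fin 3 ⊕ Fin h) ⊕ (Fin 3 ⊕ Fin h)) ℤ =>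
      N.submatrix (e.symm.sumCongr e.symm).symm (e.symm.sumCongr e.symm).symm) ?_ ?_ ?_ h1
  · have h3 : ((M.submatrix (e.sumCongr e).symm (e.sumCongr e).symm).submatrix
        (e.symm.sumCongr e.symm).symm (e.symm.sumCongr e.symm).symm) = M := by
      ext i j
      rcases i with i | i <;> rcases j with j | j <;> simp
    simp only [h3] at h2
    rw [Nat.mul_one] at h2
    exact h2
  · exact Matrix.submatrix_one_equiv _
  · intro x y
    exact (submatrix_mul_equiv _ _ _ _ _).symm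
  · rintro y ⟨S, hS, hy | hy⟩
    · simp only [hy, Big_reindex_UM]
      exact ul_U (hS.submatrix _)
    · simp only [hy, Big_reindex_LM]
      exact ul_L (hS.submatrix _)

end Pool.Agent.Lib.MP_05cdf2_gt.C
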