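import Pool.Agent.Lib.MP_05cdf2_gt.C.Defs

/-!
MP_05cdf2_gt, stream (C), JOB C_El: elementary facts about `EL` (products of elementary 3x3
matrices) and `FR` (all matrices with given first row).

Everything is an explicit computation with 3x3 matrices: `ext i j; fin_cases i <;> fin_cases j <;>
simp [...] <;> ring` or `linear_combination`.

* `el_single`: `BP.of_mem`.
* `el_Exy`: the six explicit elementary matrices.
* `EL.inv`: `BP.inv_of`, the inverse of `1 + single i j t` (i ≠ j) is `1 + single i j (-t)`.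
* `EL.transpose`: `BP.antimap` with `c = 1`.
* signed permutation matrices: `!![0,-1,0;1,0,0;0,0,1] = E12(-1) E21(1) E12(-1)`, etc.
* `EL.conjP`: `EL (k+12) (P * M * P')` if `P` is `EL 6` and `P' * P = 1`.
* `EL.b13`: with `P = !![1,0,0;0,0,-1;0,1,0]` (e1 ↦ e1, e2 ↦ e3, e3 ↦ -e2), `P * B12 a b c d * P⁻¹ =
  B13 a b c d`.
* `EL.b23`: with `P = !![0,0,1;1,0,0;0,1,0]` (e1 ↦ e2 ↦ e3 ↦ e1), `P * B12 a b c d * P⁻¹ =
  B23 a b c d`. `P` is a product of two of the signed permutation matrices above.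
* `EL.adj`: with `R = !![0,-1,0;1,0,0;0,0,1]`, `R * B12 a b c d * R⁻¹ = B12 d (-c) (-b) a`.
* `EL.tr12`: from `EL.transpose`.
* row and column operations: e.g. `B12 a b c d = B12 a (b+t*a) c (d+t*c) * (1 + single 0 1 (-t))`.
* `FR.of_el`: if `a*d-b*c = 1` and `a*d'-b*c' = 1` then
  `B12 a b c' d' = (1 + single 1 0 t) * B12 a b c d`, `t = c'*d - c*d'`.
* `FR.one`: `B12 1 b c (1+b*c) = (1 + single 1 0 c) * (1 + single 0 1 b)`.
* `FR.neg_one`: `B12 (-1) b c d` with `-d - b*c = 1`:
  `= B12 (-1) 0 0 (-1) * (1 + single 1 0 (-c)) * (1 + single 0 1 (-b))`, and `B12 (-1) 0 0 (-1)`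
  is the square of `!![0,-1,0;1,0,0;0,0,1]`.
* `FR.modeq`: if `b ∣ a - a'` then `a = a' + t*b`, and `B12 a b c d = B12 a' b c' d * E21(t)`.
-/

set_option autoImplicit false
set_option linter.unusedSectionVars false
set_option linter.unusedVariables false

namespace Pool.Agent.Lib.MP_05cdf2_gt.C
open Matrix

private theorem El_mul3 (a b c d e f g h i a' b' c' d' e' f' g' h' i' : ℤ) :
    (!![a, b, c; d, e, f; g, h, i] : Matrix (Fin 3) (Fin 3) ℤ) * !![a', b', c'; d', e', f'; g', h', i'] =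
    !![a * a' + b * d' + c * g', a * b' + b * e' + c * h', a * c' + b * f' + c * i';
       d * a' + e * d' + f * g', d * b' + e * e' + f * h', d * c' + e * f' + f * i';
       g * a' + h * d' + i * g', g * b' + h * e' + i * h', g * c' + h * f' + i * i'] := by
  ext r s
  fin_cases r <;> fin_cases s <;> simp [Matrix.mul_apply, Fin.sum_univ_three]

private theorem El_ext3 {a b c d e f g h i a' b' c' d' e' f' g' h' i' : ℤ} (h1 : a = a') (h2 : b = b')
    (h3 : c = c') (h4 : d = d') (h5 : e = e') (h6 : f = f') (h7 : g = g') (h8 : h = h') (h9 : i = i') :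
    (!![a, b, c; d, e, f; g, h, i] : Matrix (Fin 3) (Fin 3) ℤ) = !![a', b', c'; d', e', f'; g', h', i'] := by
  subst h1 h2 h3 h4 h5 h6 h7 h8 h9
  rfl

private theorem El_one3 : (1 : Matrix (Fin 3) (Fin 3) ℤ) = !![1, 0, 0; 0, 1, 0; 0, 0, 1] := by
  ext r s
  fin_cases r <;> fin_cases s <;> simp

private theorem El_cast {k : ℕ} {M N : Matrix (Fin 3) (Fin 3) ℤ} (h : EL k M) (e : N = M) : EL k N := by
  rw [e]
  exact h

private theorem El_ES {y : Matrix (Fin 3) (Fin 3) ℤ} (hy : y ∈ ES) : ∃ z ∈ ES, y * z = 1 ∧ z * y = 1 := by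
  obtain ⟨i, j, t, hij, rfl⟩ := hy
  refine ⟨1 + Matrix.single i j (-t), ⟨i, j, -t, hij, rfl⟩, ?_, ?_⟩
  · rw [add_mul, one_mul, mul_add, mul_one, Matrix.single_mul_single_of_ne _ _ _ _ hij.symm, add_zero,
      add_assoc, ← Matrix.single_add, neg_add_cancel, Matrix.single_zero, add_zero]
  · rw [add_mul, one_mul, mul_add, mul_one, Matrix.single_mul_single_of_ne _ _ _ _ hij.symm, add_zero,
      add_assoc, ← Matrix.single_add, add_neg_cancel, Matrix.single_zero, add_zero]

theorem el_single {i j : Fin 3} (h : i ≠ j) (t : ℤ) : EL 1 (1 + Matrix.single i j t) := by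
  exact BP.of_mem ⟨i, j, t, h, rfl⟩

theorem el_E12 (t : ℤ) : EL 1 !![1, t, 0; 0, 1, 0; 0, 0, 1] := by
  have e : (!![1, t, 0; 0, 1, 0; 0, 0, 1] : Matrix (Fin 3) (Fin 3) ℤ) = 1 + Matrix.single 0 1 t := by
    ext r s
    fin_cases r <;> fin_cases s <;> simp [Matrix.single]
  rw [e]
  exact el_single (by decide) t
theorem el_E21 (t : ℤ) : EL 1 !![1, 0, 0; t, 1, 0; 0, 0, 1] := by
  have e : (!![1, 0, 0; t, 1, 0; 0, 0, 1] : Matrix (Fin 3) (Fin 3) ℤ) = 1 + Matrix.single 1 0 t := by
    ext r s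
    fin_cases r <;> fin_cases s <;> simp [Matrix.single]
  rw [e]
  exact el_single (by decide) t
theorem el_E13 (t : ℤ) : EL 1 !![1, 0, t; 0, 1, 0; 0, 0, 1] := by
  have e : (!![1, 0, t; 0, 1, 0; 0, 0, 1] : Matrix (Fin 3) (Fin 3) ℤ) = 1 + Matrix.single 0 2 t := by
    ext r s
    fin_cases r <;> fin_cases s <;> simp [Matrix.single]
  rw [e]
  exact el_single (by decide) t
theorem el_E31 (t : ℤ) : EL 1 !![1, 0, 0; 0, 1, 0; t, 0, 1] := by
  have e : (!![1, 0, 0; 0, 1, 0; t, 0, 1] : Matrix (Fin 3) (Fin 3) ℤ) = 1 + Matrix.single 2 0 t := by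
    ext r s
    fin_cases r <;> fin_cases s <;> simp [Matrix.single]
  rw [e]
  exact el_single (by decide) t
theorem el_E23 (t : ℤ) : EL 1 !![1, 0, 0; 0, 1, t; 0, 0, 1] := by
  have e : (!![1, 0, 0; 0, 1, t; 0, 0, 1] : Matrix (Fin 3) (Fin 3) ℤ) = 1 + Matrix.single 1 2 t := by
    ext r s
    fin_cases r <;> fin_cases s <;> simp [Matrix.single]
  rw [e]
  exact el_single (by decide) t
theorem el_E32 (t : ℤ) : EL 1 !![1, 0, 0; 0, 1, 0; 0, t, 1] := by
  have e : (!![1, 0, 0; 0, 1, 0; 0, t, 1] : Matrix (Fin 3) (Fin 3) ℤ) = 1 + Matrix.single 2 1 t := by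
    ext r s
    fin_cases r <;> fin_cases s <;> simp [Matrix.single]
  rw [e]
  exact el_single (by decide) t

theorem EL.mul {k m : ℕ} {M N : Matrix (Fin 3) (Fin 3) ℤ} (hM : EL k M) (hN : EL m N) :
    EL (k + m) (M * N) := BP.mul hM hN

theorem EL.mono {k m : ℕ} {M : Matrix (Fin 3) (Fin 3) ℤ} (hM : EL k M) (h : k ≤ m) : EL m M :=
  BP.mono hM h

theorem EL.inv {k : ℕ} {M M' : Matrix (Fin 3) (Fin 3) ℤ} (hM : EL k M) (h : M' * M = 1) :
    EL k M' := by
  exact BP.inv_of (fun y hy => El_ES hy) hM h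

theorem EL.transpose {k : ℕ} {M : Matrix (Fin 3) (Fin 3) ℤ} (hM : EL k M) : EL k Mᵀ := by
  have h1 := BP.antimap (T := ES) (c := 1) (fun X : Matrix (Fin 3) (Fin 3) ℤ => Xᵀ) Matrix.transpose_one
    (fun x y => Matrix.transpose_mul x y) (fun y hy => by
      obtain ⟨i, j, t, hij, rfl⟩ := hy
      refine BP.of_mem ⟨j, i, t, hij.symm, ?_⟩
      rw [Matrix.transpose_add, Matrix.transpose_one, Matrix.transpose_single]) hM
  rw [mul_one] at h1
  exact h1

theorem EL.conjP {k : ℕ} {M P P' : Matrix (Fin 3) (Fin 3) ℤ} (hM : EL k M) (hP : EL 6 P)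
    (h : P' * P = 1) : EL (k + 12) (P * M * P') := by
  exact BP.mono ((hP.mul hM).mul (hP.inv h)) (by omega)

private theorem El_Q12 : EL 3 !![0, -1, 0; 1, 0, 0; 0, 0, 1] := by
  have h := ((el_E12 (-1)).mul (el_E21 1)).mul (el_E12 (-1))
  rw [El_mul3, El_mul3] at h
  exact El_cast h (El_ext3 (by norm_num) (by norm_num) (by norm_num) (by norm_num) (by norm_num) (by norm_num)
    (by norm_num) (by norm_num) (by norm_num))

private theorem El_Q23 : EL 3 !![1, 0, 0; 0, 0, -1; 0, 1, 0] := by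
  have h := ((el_E23 (-1)).mul (el_E32 1)).mul (el_E23 (-1))
  rw [El_mul3, El_mul3] at h
  exact El_cast h (El_ext3 (by norm_num) (by norm_num) (by norm_num) (by norm_num) (by norm_num) (by norm_num)
    (by norm_num) (by norm_num) (by norm_num))

private theorem El_P : EL 6 !![0, 0, 1; 1, 0, 0; 0, 1, 0] := by
  have h := El_Q12.mul El_Q23
  rw [El_mul3] at h
  exact El_cast h (El_ext3 (by norm_num) (by norm_num) (by norm_num) (by norm_num) (by norm_num) (by norm_num)
    (by norm_num) (by norm_num) (by norm_num))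

theorem EL.b13 {k : ℕ} {a b c d : ℤ} (h : EL k (B12 a b c d)) : EL (k + 12) (B13 a b c d) := by
  have h1 := EL.conjP (P := !![1, 0, 0; 0, 0, -1; 0, 1, 0]) (P' := !![1, 0, 0; 0, 0, 1; 0, -1, 0]) h (El_Q23.mono (by norm_num))
    (by
      rw [El_mul3, El_one3]
      exact El_ext3 (by ring) (by ring) (by ring) (by ring) (by ring) (by ring) (by ring) (by ring) (by ring))
  unfold B12 at h1
  rw [El_mul3, El_mul3] at h1
  unfold B13
  exact El_cast h1 (El_ext3 (by ring) (by ring) (by ring) (by ring) (by ring) (by ring) (by ring) (by ring) (by ring))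

theorem EL.b23 {k : ℕ} {a b c d : ℤ} (h : EL k (B12 a b c d)) : EL (k + 12) (B23 a b c d) := by
  have h1 := EL.conjP (P := !![0, 0, 1; 1, 0, 0; 0, 1, 0]) (P' := !![0, 1, 0; 0, 0, 1; 1, 0, 0]) h (El_P)
    (by
      rw [El_mul3, El_one3]
      exact El_ext3 (by ring) (by ring) (by ring) (by ring) (by ring) (by ring) (by ring) (by ring) (by ring))
  unfold B12 at h1
  rw [El_mul3, El_mul3] at h1
  unfold B23
  exact El_cast h1 (El_ext3 (by ring) (by ring) (by ring) (by ring) (by ring) (by ring) (by ring) (by ring) (by ring))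

theorem EL.adj {k : ℕ} {a b c d : ℤ} (h : EL k (B12 a b c d)) :
    EL (k + 12) (B12 d (-c) (-b) a) := by
  have h1 := EL.conjP (P := !![0, -1, 0; 1, 0, 0; 0, 0, 1]) (P' := !![0, 1, 0; -1, 0, 0; 0, 0, 1]) h (El_Q12.mono (by norm_num))
    (by
      rw [El_mul3, El_one3]
      exact El_ext3 (by ring) (by ring) (by ring) (by ring) (by ring) (by ring) (by ring) (by ring) (by ring))
  unfold B12 at h1
  rw [El_mul3, El_mul3] at h1
  unfold B12
  exact El_cast h1 (El_ext3 (by ring) (by ring) (by ring) (by ring) (by ring) (by ring) (by ring) (by ring) (by ring))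

theorem EL.tr12 {k : ℕ} {a b c d : ℤ} (h : EL k (B12 a b c d)) : EL k (B12 a c b d) := by
  have h1 := h.transpose
  have e : B12 a c b d = (B12 a b c d)ᵀ := by
    unfold B12
    ext r s
    fin_cases r <;> fin_cases s <;> rfl
  rw [e]
  exact h1

/-- column operations -/
theorem EL.colb {k : ℕ} {a b c d : ℤ} (t : ℤ) (h : EL k (B12 a (b + t * a) c (d + t * c))) :
    EL (k + 1) (B12 a b c d) := by
  have h1 := h.mul (el_E12 (-t))
  unfold B12 at h1
  rw [El_mul3] at h1
  refine BP.mono (k := k + 1) ?_ (by omega)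
  unfold B12
  exact El_cast h1 (El_ext3 (by ring) (by ring) (by ring) (by ring) (by ring) (by ring) (by ring) (by ring) (by ring))
theorem EL.cola {k : ℕ} {a b c d : ℤ} (t : ℤ) (h : EL k (B12 (a + t * b) b (c + t * d) d)) :
    EL (k + 1) (B12 a b c d) := by
  have h1 := h.mul (el_E21 (-t))
  unfold B12 at h1
  rw [El_mul3] at h1
  refine BP.mono (k := k + 1) ?_ (by omega)
  unfold B12
  exact El_cast h1 (El_ext3 (by ring) (by ring) (by ring) (by ring) (by ring) (by ring) (by ring) (by ring) (by ring))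
/-- row operations -/
theorem EL.rowc {k : ℕ} {a b c d : ℤ} (t : ℤ) (h : EL k (B12 a b (c + t * a) (d + t * b))) :
    EL (k + 1) (B12 a b c d) := by
  have h1 := (el_E21 (-t)).mul h
  unfold B12 at h1
  rw [El_mul3] at h1
  refine BP.mono (k := 1 + k) ?_ (by omega)
  unfold B12
  exact El_cast h1 (El_ext3 (by ring) (by ring) (by ring) (by ring) (by ring) (by ring) (by ring) (by ring) (by ring))
theorem EL.rowa {k : ℕ} {a b c d : ℤ} (t : ℤ) (h : EL k (B12 (a + t * c) (b + t * d) c d)) :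
    EL (k + 1) (B12 a b c d) := by
  have h1 := (el_E12 (-t)).mul h
  unfold B12 at h1
  rw [El_mul3] at h1
  refine BP.mono (k := 1 + k) ?_ (by omega)
  unfold B12
  exact El_cast h1 (El_ext3 (by ring) (by ring) (by ring) (by ring) (by ring) (by ring) (by ring) (by ring) (by ring))

theorem FR.mono {k m : ℕ} {a b : ℤ} (h : FR k a b) (hkm : k ≤ m) : FR m a b :=
  fun c d hcd => (h c d hcd).mono hkm

theorem FR.of_el {k : ℕ} {a b c d : ℤ} (hd : a * d - b * c = 1) (h : EL k (B12 a b c d)) :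
    FR (k + 1) a b := by
  intro c' d' h'
  refine EL.rowc (-(c' * d - c * d')) ?_
  have e1 : c' + -(c' * d - c * d') * a = c := by linear_combination (-c') * hd + c * h'
  have e2 : d' + -(c' * d - c * d') * b = d := by linear_combination (-d') * hd + d * h'
  rw [e1, e2]
  exact h

theorem FR.one (b : ℤ) : FR 2 1 b := by
  have h : EL 1 (B12 1 b 0 1) := el_E12 b
  exact FR.of_el (by ring) h

theorem FR.neg_one (b : ℤ) : FR 8 (-1) b := by
  have h := (El_Q12.mul El_Q12).mul (el_E12 (-b))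
  rw [El_mul3, El_mul3] at h
  have h2 : EL 7 (B12 (-1) b 0 (-1)) := by
    unfold B12
    exact El_cast h (El_ext3 (by ring) (by ring) (by ring) (by ring) (by ring) (by ring) (by ring) (by ring) (by ring))
  exact FR.of_el (by ring) h2

theorem FR.modeq {k : ℕ} {a a' b : ℤ} (hab : b ∣ a - a') (h : FR k a' b) : FR (k + 1) a b := by
  intro c d hcd
  obtain ⟨t, ht⟩ := hab
  refine EL.cola (-t) ?_
  have e1 : a + -t * b = a' := by linear_combination ht
  rw [e1]
  refine h _ _ ?_
  have e2 : a' = a - b * t := by linear_combination -ht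
  rw [e2]
  linear_combination hcd

end Pool.Agent.Lib.MP_05cdf2_gt.C
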