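import Pool.Agent.Lib.MP_05cdf2_gt.C.UlBasic
import Pool.Agent.Lib.MP_05cdf2_gt.C.El

/-!
MP_05cdf2_gt, stream (C), JOB C_DMap: `D(M) = fromBlocks M 0 0 M^{-T}`.

1. `ul_D_single`: for `i ≠ j`, put `P` = the permutation matrix of the transposition `(i j)`
   (symmetric, `P * P = 1`), `S = P + single i i x` (symmetric), `S * (P - single j j x) = 1`.
   Then `S * P = 1 + single i j x`; so
   `fromBlocks (1 + single i j x) 0 0 (1 - single j i x)
      = fromBlocks 0 S (-(P - single j j x)) 0 * fromBlocks 0 (-P) P 0`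
   (the product is `fromBlocks (S * P) 0 0 ((P - single j j x) * P)`, and
   `(P - single j j x) * P = 1 - single j i x`). Both factors are `UL 3` by `ul_wS`
   (the second with `S := -P`, `T := -P`).
   For `Fin 3` one can also treat the six pairs `(i, j)` with explicit matrices (`fin_cases`).
2. `ul_D`: induction (`BP.ind`) : the statement is `P k M := ∃ N, N * M = 1 ∧ M * N = 1 ∧
   UL (6 * k) (fromBlocks M 0 0 Nᵀ)`; for `M' = E * M`, `E = 1 + single i j x`,
   `N' = N * (1 - single i j x)`, `N'ᵀ = (1 - single j i x) * Nᵀ`, and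
   `fromBlocks M' 0 0 N'ᵀ = fromBlocks E 0 0 (1 - single j i x) * fromBlocks M 0 0 Nᵀ`.
   Then `N` is determined by `N * M = 1` (two-sided inverse).
-/

set_option autoImplicit false
set_option linter.unusedSectionVars false
set_option linter.unusedVariables false

namespace Pool.Agent.Lib.MP_05cdf2_gt.C
open Matrix

/-- the permutation matrix of the transposition `(i j)` -/
def dmapP (i j : Fin 3) : Matrix (Fin 3) (Fin 3) ℤ :=
  Matrix.of fun a b => if a = Equiv.swap i j b then (1 : ℤ) else 0

theorem dmap_single_symm (i : Fin 3) (x : ℤ) : (Matrix.single i i x).IsSymm := by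
  ext a b
  simp only [Matrix.transpose_apply, Matrix.single_apply, and_comm]

theorem dmapP_sq (i j : Fin 3) : dmapP i j * dmapP i j = 1 := by
  revert i j
  decide

theorem dmapP_symm (i j : Fin 3) : (dmapP i j).IsSymm := by
  unfold Matrix.IsSymm
  revert i j
  decide

theorem dmapP_row (i j b : Fin 3) : dmapP i j i b = if j = b then 1 else 0 := by
  revert i j b
  decide

theorem dmapP_row' (i j b : Fin 3) : dmapP i j j b = if i = b then 1 else 0 := by
  revert i j b
  decide

theorem dmap_single_mul (i j : Fin 3) (x : ℤ) :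
    Matrix.single i i x * dmapP i j = Matrix.single i j x := by
  ext a b
  by_cases ha : a = i
  · subst ha
    rw [Matrix.single_mul_apply_same, dmapP_row]
    by_cases hb : j = b
    · simp [hb]
    · simp [hb]
  · rw [Matrix.single_mul_apply_of_ne _ _ _ _ _ ha]
    simp [Ne.symm ha]

theorem dmap_single_mul' (i j : Fin 3) (x : ℤ) :
    Matrix.single j j x * dmapP i j = Matrix.single j i x := by
  ext a b
  by_cases ha : a = j
  · subst ha
    rw [Matrix.single_mul_apply_same, dmapP_row']
    by_cases hb : i = b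
    · simp [hb]
    · simp [hb]
  · rw [Matrix.single_mul_apply_of_ne _ _ _ _ _ ha]
    simp [Ne.symm ha]

theorem dmap_mul_single (i j : Fin 3) (x : ℤ) :
    dmapP i j * Matrix.single i i x = Matrix.single j i x := by
  have h := congrArg Matrix.transpose (dmap_single_mul i j x)
  rw [Matrix.transpose_mul, (dmapP_symm i j).eq, (dmap_single_symm i x).eq,
    Matrix.transpose_single] at h
  exact h

theorem dmap_mul_single' (i j : Fin 3) (x : ℤ) :
    dmapP i j * Matrix.single j j x = Matrix.single i j x := by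
  have h := congrArg Matrix.transpose (dmap_single_mul' i j x)
  rw [Matrix.transpose_mul, (dmapP_symm i j).eq, (dmap_single_symm j x).eq,
    Matrix.transpose_single] at h
  exact h

theorem dmap_facts {i j : Fin 3} (h : i ≠ j) (x : ℤ) :
    dmapP i j * dmapP i j = 1 ∧ (dmapP i j).IsSymm ∧
    (dmapP i j + Matrix.single i i x) * dmapP i j = 1 + Matrix.single i j x ∧
    (dmapP i j - Matrix.single j j x) * dmapP i j = 1 - Matrix.single j i x ∧
    (dmapP i j + Matrix.single i i x) * (dmapP i j - Matrix.single j j x) = 1 ∧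
    (dmapP i j - Matrix.single j j x) * (dmapP i j + Matrix.single i i x) = 1 := by
  refine ⟨dmapP_sq i j, dmapP_symm i j, ?_, ?_, ?_, ?_⟩
  · rw [add_mul, dmapP_sq, dmap_single_mul]
  · rw [sub_mul, dmapP_sq, dmap_single_mul']
  · rw [add_mul, mul_sub, mul_sub, dmapP_sq, dmap_single_mul, dmap_mul_single',
      Matrix.single_mul_single_of_ne _ _ _ _ h]
    abel
  · rw [sub_mul, mul_add, mul_add, dmapP_sq, dmap_single_mul', dmap_mul_single,
      Matrix.single_mul_single_of_ne _ _ _ _ h.symm]
    abel

theorem ul_D_single {i j : Fin 3} (h : i ≠ j) (x : ℤ) :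
    UL 6 (fromBlocks (1 + Matrix.single i j x) 0 0 (1 - Matrix.single j i x)) := by
  obtain ⟨h1, h2, h3, h4, h5, h6⟩ := dmap_facts h x
  have hS : (dmapP i j + Matrix.single i i x).IsSymm :=
    h2.add (dmap_single_symm i x)
  have hT : (dmapP i j - Matrix.single j j x).IsSymm :=
    h2.sub (dmap_single_symm j x)
  have e : fromBlocks (1 + Matrix.single i j x) 0 0 (1 - Matrix.single j i x) =
      fromBlocks 0 (dmapP i j + Matrix.single i i x) (-(dmapP i j - Matrix.single j j x)) 0 *
        fromBlocks 0 (-dmapP i j) (-(-dmapP i j)) 0 := by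
    rw [fromBlocks_multiply]
    simp only [Matrix.zero_mul, Matrix.mul_zero, zero_add, add_zero, neg_neg, Matrix.neg_mul,
      Matrix.mul_neg, h3, h4, neg_zero]
  rw [e]
  have hn : (-dmapP i j).IsSymm := h2.neg
  exact (ul_wS hS hT h5 h6).mul (ul_wS hn hn (by rw [Matrix.neg_mul, Matrix.mul_neg, neg_neg, h1])
    (by rw [Matrix.neg_mul, Matrix.mul_neg, neg_neg, h1]))

theorem dmap_ind {k : ℕ} {M : Matrix (Fin 3) (Fin 3) ℤ} (h : EL k M) :
    ∃ N, N * M = 1 ∧ M * N = 1 ∧ UL (6 * k) (fromBlocks M 0 0 Nᵀ) := by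
  refine BP.ind (P := fun k M => ∃ N, N * M = 1 ∧ M * N = 1 ∧
    UL (6 * k) (fromBlocks M 0 0 Nᵀ)) ?_ ?_ ?_ h
  · refine ⟨1, by simp, by simp, ?_⟩
    rw [Matrix.transpose_one, fromBlocks_one]
    exact BP.one' _
  · rintro k m x hkm ⟨N, h1, h2, h3⟩
    exact ⟨N, h1, h2, h3.mono (by omega)⟩
  · rintro k y x ⟨i, j, t, hij, rfl⟩ _ ⟨N, h1, h2, h3⟩
    have hz : Matrix.single i j t * Matrix.single i j t = 0 := by
      rw [Matrix.single_mul_single_of_ne _ _ _ _ hij.symm]
    have ha : (1 - Matrix.single i j t) * (1 + Matrix.single i j t) = 1 := by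
      rw [sub_mul, mul_add, mul_add, hz]
      simp
    have hb : (1 + Matrix.single i j t) * (1 - Matrix.single i j t) = 1 := by
      rw [add_mul, mul_sub, mul_sub, hz]
      simp
    refine ⟨N * (1 - Matrix.single i j t), ?_, ?_, ?_⟩
    · calc N * (1 - Matrix.single i j t) * ((1 + Matrix.single i j t) * x)
          = N * ((1 - Matrix.single i j t) * (1 + Matrix.single i j t)) * x := by
            simp only [mul_assoc]
        _ = 1 := by rw [ha, mul_one, h1]
    · calc (1 + Matrix.single i j t) * x * (N * (1 - Matrix.single i j t))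
          = (1 + Matrix.single i j t) * (x * N) * (1 - Matrix.single i j t) := by
            simp only [mul_assoc]
        _ = 1 := by rw [h2, mul_one, hb]
    · have e : fromBlocks ((1 + Matrix.single i j t) * x) 0 0
          (N * (1 - Matrix.single i j t))ᵀ =
          fromBlocks (1 + Matrix.single i j t) 0 0 (1 - Matrix.single j i t) *
            fromBlocks x 0 0 Nᵀ := by
        rw [fromBlocks_multiply, Matrix.transpose_mul, Matrix.transpose_sub,
          Matrix.transpose_one, Matrix.transpose_single]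
        simp only [Matrix.zero_mul, Matrix.mul_zero, zero_add, add_zero]
      rw [e]
      exact ((ul_D_single hij t).mul h3).mono (by omega)

theorem ul_D {k : ℕ} {M N : Matrix (Fin 3) (Fin 3) ℤ} (h : EL k M) (hN : N * M = 1) :
    UL (6 * k) (fromBlocks M 0 0 Nᵀ) := by
  obtain ⟨N', h1, h2, h3⟩ := dmap_ind h
  have : N = N' := by
    calc N = N * (M * N') := by rw [h2, mul_one]
      _ = N' := by rw [← mul_assoc, hN, one_mul]
  rw [this]
  exact h3

theorem ul_DB {k : ℕ} {a b c d : ℤ} (hd : a * d - b * c = 1) (h : EL k (B12 a b c d)) :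
    UL (6 * k) (fromBlocks (B12 a b c d) 0 0 (B12 d (-c) (-b) a)) := by
  have h1 : B12 d (-b) (-c) a * B12 a b c d = 1 := by
    unfold B12
    ext i j
    fin_cases i <;> fin_cases j <;>
      simp [Matrix.mul_apply, Fin.sum_univ_three] <;>
      first | linear_combination hd | linear_combination (0 : ℤ) * hd
  have h2 : (B12 d (-b) (-c) a)ᵀ = B12 d (-c) (-b) a := by
    unfold B12
    ext i j
    fin_cases i <;> fin_cases j <;> rfl
  have := ul_D h h1
  rwa [h2] at this

end Pool.Agent.Lib.MP_05cdf2_gt.C
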