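import Mathlib

/-!
MP_05cdf2_gt, stream (C): bounded generation of `Sp_{2g}(Z)`, `g ≥ 3`, by transvections.
Definitions.
-/

set_option autoImplicit false
set_option linter.unusedSectionVars false
set_option linter.unusedVariables false

namespace Pool.Agent.Lib.MP_05cdf2_gt.C
open Matrix

/-- `x` is a product of at most `k` elements of `S`. -/
def BP {G : Type*} [Monoid G] (S : Set G) (k : ℕ) (x : G) : Prop :=
  ∃ l : List G, l.length ≤ k ∧ (∀ y ∈ l, y ∈ S) ∧ l.prod = x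

section BPlemmas
variable {G H : Type*} [Monoid G] [Monoid H] {S : Set G} {T : Set H}

theorem BP.one : BP S 0 1 := ⟨[], by simp, by simp, by simp⟩

theorem BP.of_mem {x : G} (h : x ∈ S) : BP S 1 x := ⟨[x], by simp, by simpa using h, by simp⟩

theorem BP.mul {k m : ℕ} {x y : G} (hx : BP S k x) (hy : BP S m y) : BP S (k + m) (x * y) := by
  obtain ⟨l, h1, h2, h3⟩ := hx
  obtain ⟨l', h1', h2', h3'⟩ := hy
  refine ⟨l ++ l', by simp; omega, ?_, by simp [h3, h3']⟩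
  intro y hy
  rcases List.mem_append.mp hy with h | h
  · exact h2 y h
  · exact h2' y h

theorem BP.mono {k m : ℕ} {x : G} (hx : BP S k x) (h : k ≤ m) : BP S m x := by
  obtain ⟨l, h1, h2, h3⟩ := hx
  exact ⟨l, h1.trans h, h2, h3⟩

theorem BP.one' (k : ℕ) : BP S k 1 := BP.one.mono (Nat.zero_le k)

/-- induction principle -/
theorem BP.ind {P : ℕ → G → Prop} (h0 : P 0 1) (hm : ∀ k m x, k ≤ m → P k x → P m x)
    (hs : ∀ k y x, y ∈ S → BP S k x → P k x → P (k + 1) (y * x)) {k : ℕ} {x : G} (hx : BP S k x) :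
    P k x := by
  obtain ⟨l, h1, h2, h3⟩ := hx
  subst h3
  refine hm _ _ _ h1 ?_
  clear h1
  induction l with
  | nil => simpa using h0
  | cons y l ih =>
    have h2' : ∀ z ∈ l, z ∈ S := fun z hz => h2 z (List.mem_cons_of_mem _ hz)
    have := hs l.length y l.prod (h2 y List.mem_cons_self) ⟨l, le_rfl, h2', rfl⟩ (ih h2')
    simpa using this

theorem BP.map {c k : ℕ} {x : G} (f : G → H) (h1 : f 1 = 1) (hmul : ∀ x y, f (x * y) = f x * f y)
    (h : ∀ y ∈ S, BP T c (f y)) (hx : BP S k x) : BP T (k * c) (f x) := by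
  refine BP.ind (P := fun k x => BP T (k * c) (f x)) ?_ ?_ ?_ hx
  · rw [h1]; exact BP.one' _
  · intro k m x hkm hx
    exact hx.mono (Nat.mul_le_mul_right c hkm)
  · intro k y x hy _ hx
    rw [hmul]
    exact ((h y hy).mul hx).mono (by ring_nf; exact le_rfl)

theorem BP.antimap {c k : ℕ} {x : G} (f : G → H) (h1 : f 1 = 1)
    (hmul : ∀ x y, f (x * y) = f y * f x)
    (h : ∀ y ∈ S, BP T c (f y)) (hx : BP S k x) : BP T (k * c) (f x) := by
  refine BP.ind (P := fun k x => BP T (k * c) (f x)) ?_ ?_ ?_ hx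
  · rw [h1]; exact BP.one' _
  · intro k m x hkm hx
    exact hx.mono (Nat.mul_le_mul_right c hkm)
  · intro k y x hy _ hx
    rw [hmul]
    exact (hx.mul (h y hy)).mono (by ring_nf; exact le_rfl)

/-- the inverse of a product of `k` elements of `S` -/
theorem BP.exists_inv {k : ℕ} {x : G} (h : ∀ y ∈ S, ∃ z ∈ S, y * z = 1 ∧ z * y = 1)
    (hx : BP S k x) : ∃ z, BP S k z ∧ x * z = 1 ∧ z * x = 1 := by
  refine BP.ind (P := fun k x => ∃ z, BP S k z ∧ x * z = 1 ∧ z * x = 1) ?_ ?_ ?_ hx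
  · exact ⟨1, BP.one, by simp, by simp⟩
  · rintro k m x hkm ⟨z, hz, h1, h2⟩
    exact ⟨z, hz.mono hkm, h1, h2⟩
  · rintro k y x hy _ ⟨z, hz, h1, h2⟩
    obtain ⟨w, hw, h3, h4⟩ := h y hy
    refine ⟨z * w, hz.mul (BP.of_mem hw), ?_, ?_⟩
    · calc y * x * (z * w) = y * (x * z) * w := by simp only [mul_assoc]
        _ = 1 := by rw [h1, mul_one, h3]
    · calc z * w * (y * x) = z * (w * y) * x := by simp only [mul_assoc]
        _ = 1 := by rw [h4, mul_one, h2]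

theorem BP.inv_of {k : ℕ} {x x' : G} (h : ∀ y ∈ S, ∃ z ∈ S, y * z = 1 ∧ z * y = 1)
    (hx : BP S k x) (h' : x' * x = 1) : BP S k x' := by
  obtain ⟨z, hz, h1, h2⟩ := hx.exists_inv h
  have : x' = z := by
    calc x' = x' * (x * z) := by rw [h1, mul_one]
      _ = z := by rw [← mul_assoc, h', one_mul]
  rw [this]; exact hz

theorem BP.inv_of' {k : ℕ} {x x' : G} (h : ∀ y ∈ S, ∃ z ∈ S, y * z = 1 ∧ z * y = 1)
    (hx : BP S k x) (h' : x * x' = 1) : BP S k x' := by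
  obtain ⟨z, hz, h1, h2⟩ := hx.exists_inv h
  have : x' = z := by
    calc x' = (z * x) * x' := by rw [h2, one_mul]
      _ = z := by rw [mul_assoc, h', mul_one]
  rw [this]; exact hz

end BPlemmas

/-- the elementary `3 × 3` matrices -/
def ES : Set (Matrix (Fin 3) (Fin 3) ℤ) :=
  {M | ∃ (i j : Fin 3) (t : ℤ), i ≠ j ∧ M = 1 + Matrix.single i j t}

/-- `M` is a product of at most `k` elementary `3 × 3` matrices -/
def EL (k : ℕ) (M : Matrix (Fin 3) (Fin 3) ℤ) : Prop := BP ES k M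

/-- the three embeddings of `2 × 2` matrices in `3 × 3` matrices -/
def B12 (a b c d : ℤ) : Matrix (Fin 3) (Fin 3) ℤ := !![a, b, 0; c, d, 0; 0, 0, 1]
def B13 (a b c d : ℤ) : Matrix (Fin 3) (Fin 3) ℤ := !![a, 0, b; 0, 1, 0; c, 0, d]
def B23 (a b c d : ℤ) : Matrix (Fin 3) (Fin 3) ℤ := !![1, 0, 0; 0, a, b; 0, c, d]

/-- every matrix of determinant one with first row `(a, b)` is a product of at most `k`
elementary `3 × 3` matrices -/
def FR (k : ℕ) (a b : ℤ) : Prop := ∀ c d : ℤ, a * d - b * c = 1 → EL k (B12 a b c d)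

section general
variable {n : Type*} [Fintype n] [DecidableEq n]

/-- upper unipotent -/
def UM (S : Matrix n n ℤ) : Matrix (n ⊕ n) (n ⊕ n) ℤ := fromBlocks 1 S 0 1
/-- lower unipotent -/
def LM (S : Matrix n n ℤ) : Matrix (n ⊕ n) (n ⊕ n) ℤ := fromBlocks 1 0 S 1

/-- the unipotent generators -/
def ULS (n : Type*) [Fintype n] [DecidableEq n] : Set (Matrix (n ⊕ n) (n ⊕ n) ℤ) :=
  {M | ∃ S : Matrix n n ℤ, S.IsSymm ∧ (M = UM S ∨ M = LM S)}

/-- `M` is a product of at most `k` matrices `UM S`, `LM S` with `S` symmetric -/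
def UL (k : ℕ) (M : Matrix (n ⊕ n) (n ⊕ n) ℤ) : Prop := BP (ULS n) k M

/-- the embedding of `SL_2` at the index `i` -/
def Lam (i : n) (a b c d : ℤ) : Matrix (n ⊕ n) (n ⊕ n) ℤ :=
  fromBlocks (1 + Matrix.single i i (a - 1)) (Matrix.single i i b) (Matrix.single i i c)
    (1 + Matrix.single i i (d - 1))

/-- primitive (unimodular) vectors -/
def Prim {ι : Type*} [Fintype ι] (v : ι → ℤ) : Prop := ∃ u : ι → ℤ, v ⬝ᵥ u = 1

/-- the `k`-th power of the transvection `x ↦ x + ω(v, x) v` -/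
def tv (v : n ⊕ n → ℤ) (k : ℤ) : Matrix (n ⊕ n) (n ⊕ n) ℤ :=
  1 + k • vecMulVec v (J n ℤ *ᵥ v)

/-- the products `t_{v_1}^{k_1} ⋯ t_{v_N}^{k_N}` -/
def PT : List (n ⊕ n → ℤ) → Set (Matrix (n ⊕ n) (n ⊕ n) ℤ)
  | [] => {1}
  | v :: l => {M | ∃ k : ℤ, ∃ M' ∈ PT l, M = tv v k * M'}

/-- `M` fixes the basis (row) vectors with index outside `t` -/
def Std (t : Finset n) (M : Matrix (n ⊕ n) (n ⊕ n) ℤ) : Prop :=
  ∀ i, i ∉ t → M (Sum.inl i) = Pi.single (Sum.inl i) 1 ∧ M (Sum.inr i) = Pi.single (Sum.inr i) 1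

end general

end Pool.Agent.Lib.MP_05cdf2_gt.C
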