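import Pool.Agent.Lib.MP_05cdf2_gt.C.UlBasic

/-!
MP_05cdf2_gt, stream (C), JOB C_ToT: `UM S` and `LM S` are products of powers of transvections from a
fixed list.

* `PT_one`: all exponents zero, `tv v 0 = 1`. `PT_append`: induction on `l`.
* `tv_inl`: `tv (Sum.elim w 0) k = UM (k • vecMulVec w w)`; `tv_inr`: `tv (Sum.elim 0 w) k =
  LM (-(k • vecMulVec w w))`. (`J *ᵥ (w; 0) = (0; w)`, `J *ᵥ (0; w) = (-w; 0)`.)
* `sum_PT_U`: for a list `l` of vectors and a function `c` (exponents) ... by induction on `l`: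
  `UM ((l.map fun p => c p • vecMulVec (f p) (f p)).sum) ∈ PT (l.map fun p => Sum.elim (f p) 0)`,
  with `UM_mul_UM`. Same for `LM` with exponents `-c p`.
* `symm_decomp`: a symmetric `S` over `Fin g` is the sum over the list of all pairs `(i, j)`, `i ≤ j`
  of `c(i,j) • vecMulVec (f (i,j)) (f (i,j))`, `f (i,i) = e_i`, `f (i,j) = e_i + e_j` for `i < j`,
  `c (i,j) = S i j` for `i < j`, `c (i,i) = S i i - ∑_{j ≠ i} S i j`. (It is convenient to use all
  pairs `(i, j)` with `c (i, j) = 0` for `i > j`: the sum over the list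
  `(Finset.univ : Finset (Fin g × Fin g)).toList` is `∑ i, ∑ j`.)
* Primitive: `e_i ⬝ e_i = 1`, `(e_i + e_j) ⬝ e_i = 1` for `i ≠ j`. For `i > j` the vector is also
  `e_i + e_j`.
-/

set_option autoImplicit false
set_option linter.unusedSectionVars false
set_option linter.unusedVariables false

namespace Pool.Agent.Lib.MP_05cdf2_gt.C
open Matrix

variable {n : Type*} [Fintype n] [DecidableEq n]

theorem ToT_tv_zero (v : n ⊕ n → ℤ) : tv v 0 = 1 := by
  unfold tv
  rw [zero_smul, add_zero]

theorem PT_one (l : List (n ⊕ n → ℤ)) : (1 : Matrix (n ⊕ n) (n ⊕ n) ℤ) ∈ PT l := by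
  induction l with
  | nil => exact Set.mem_singleton 1
  | cons v l ih => exact ⟨0, 1, ih, by rw [ToT_tv_zero, one_mul]⟩

theorem PT_append {l l' : List (n ⊕ n → ℤ)} {M M' : Matrix (n ⊕ n) (n ⊕ n) ℤ} (h : M ∈ PT l)
    (h' : M' ∈ PT l') : M * M' ∈ PT (l ++ l') := by
  induction l generalizing M with
  | nil =>
    have : M = 1 := h
    rw [this, one_mul]
    exact h'
  | cons v l ih =>
    obtain ⟨k, N, hN, rfl⟩ := h
    exact ⟨k, N * M', ih hN, by rw [mul_assoc]⟩

theorem tv_inl (w : n → ℤ) (k : ℤ) : tv (Sum.elim w 0) k = UM (k • vecMulVec w w) := by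
  have hJ : J n ℤ *ᵥ (Sum.elim w 0) = Sum.elim (0 : n → ℤ) w := by
    simp [J, fromBlocks_mulVec]
  unfold tv UM
  rw [hJ]
  ext i j
  rcases i with i | i <;> rcases j with j | j <;>
    simp [-zsmul_eq_mul, vecMulVec_apply, Matrix.one_apply, Matrix.smul_apply]

theorem tv_inr (w : n → ℤ) (k : ℤ) : tv (Sum.elim 0 w) k = LM (-(k • vecMulVec w w)) := by
  have hJ : J n ℤ *ᵥ (Sum.elim 0 w) = Sum.elim (-w) (0 : n → ℤ) := by
    simp [J, fromBlocks_mulVec, Matrix.neg_mulVec]
  unfold tv LM
  rw [hJ]
  ext i j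
  rcases i with i | i <;> rcases j with j | j <;>
    simp [-zsmul_eq_mul, vecMulVec_apply, Matrix.one_apply, Matrix.smul_apply]

theorem ToT_term {g : ℕ} (S : Matrix (Fin g) (Fin g) ℤ) (i j a b : Fin g) :
    (if i < j then S i j else if i = j then S i i - ∑ j ∈ Finset.univ.erase i, S i j else 0) *
      ((if i = j then (Pi.single i 1 : Fin g → ℤ) else Pi.single i 1 + Pi.single j 1) a *
       (if i = j then (Pi.single i 1 : Fin g → ℤ) else Pi.single i 1 + Pi.single j 1) b) =
    (if i = a then (if i = b then (if i = j then S i i - ∑ j ∈ Finset.univ.erase i, S i j else 0) else 0) else 0)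
    + (if i = a then (if i = b then (if i < j then S i j else 0) else 0) else 0)
    + (if j = a then (if j = b then (if i < j then S i j else 0) else 0) else 0)
    + (if i = a then (if j = b then (if i < j then S i j else 0) else 0) else 0)
    + (if j = a then (if i = b then (if i < j then S i j else 0) else 0) else 0) := by
  rcases lt_trichotomy i j with h | h | h
  · simp only [h, h.ne, if_true, if_false, Pi.add_apply, Pi.single_apply, eq_comm (a := a), eq_comm (a := b)]
    split_ifs <;> ring
  · subst h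
    simp only [lt_irrefl, if_true, if_false, Pi.single_apply, eq_comm (a := a), eq_comm (a := b)]
    split_ifs <;> ring
  · simp only [h.not_gt, h.ne', if_false]
    split_ifs <;> ring

theorem ToT_sum {g : ℕ} (S : Matrix (Fin g) (Fin g) ℤ) (hS : S.IsSymm) (a b : Fin g) :
    S a b = ∑ i, ∑ j, 
    (if i < j then S i j else if i = j then S i i - ∑ j ∈ Finset.univ.erase i, S i j else 0) *
      ((if i = j then (Pi.single i 1 : Fin g → ℤ) else Pi.single i 1 + Pi.single j 1) a *
       (if i = j then (Pi.single i 1 : Fin g → ℤ) else Pi.single i 1 + Pi.single j 1) b) := by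
  have hs : ∀ i j, S i j = S j i := fun i j => by
    have := congrFun (congrFun hS j) i
    simpa using this
  simp only [ToT_term, Finset.sum_add_distrib]
  have e1 : ∀ (x y : Fin g) (F : Fin g → Fin g → ℤ),
    ∑ i, ∑ j, (if i = x then (if i = y then F i j else 0) else 0) = if x = y then ∑ j, F x j else 0 := by
    intro x y F
    rw [Finset.sum_eq_single x]
    · by_cases hxy : x = y <;> simp [hxy]
    · intro i _ hi; simp [hi]
    · simp
  have e2 : ∀ (x y : Fin g) (F : Fin g → Fin g → ℤ),
    ∑ i, ∑ j, (if j = x then (if j = y then F i j else 0) else 0) = if x = y then ∑ i, F i x else 0 := by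
    intro x y F
    rw [Finset.sum_comm]
    exact e1 x y (fun i j => F j i)
  have e3 : ∀ (x y : Fin g) (F : Fin g → Fin g → ℤ),
    ∑ i, ∑ j, (if i = x then (if j = y then F i j else 0) else 0) = F x y := by
    intro x y F
    rw [Finset.sum_eq_single x]
    · simp
    · intro i _ hi; simp [hi]
    · simp
  have e4 : ∀ (x y : Fin g) (F : Fin g → Fin g → ℤ),
    ∑ i, ∑ j, (if j = x then (if i = y then F i j else 0) else 0) = F y x := by
    intro x y F
    rw [Finset.sum_comm]
    exact e3 x y (fun i j => F j i)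
  rw [e1, e1, e2, e3, e4]
  by_cases hab : a = b
  · subst hab
    simp only [if_true, lt_irrefl, if_false, add_zero]
    rw [Finset.sum_ite_eq]
    simp only [Finset.mem_univ, if_true]
    have : ∑ j ∈ Finset.univ.erase a, S a j = ∑ j, (if a < j then S a j else 0) + ∑ j, (if j < a then S j a else 0) := by
      rw [← Finset.sum_add_distrib, ← Finset.sum_erase (s := Finset.univ) (a := a)
        (f := fun j => (if a < j then S a j else 0) + (if j < a then S j a else 0))]
      · apply Finset.sum_congr rfl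
        intro j hj
        have hj' : j ≠ a := Finset.ne_of_mem_erase hj
        rcases lt_or_gt_of_ne hj' with h | h
        · rw [if_neg h.not_gt, if_pos h, zero_add, hs]
        · rw [if_pos h, if_neg h.not_gt, add_zero]
      · simp
    rw [this]
    ring
  · simp only [if_neg hab]
    rcases lt_or_gt_of_ne hab with h | h
    · simp [h, h.not_gt]
    · simp [h, h.not_gt, hs a b]

theorem symm_decomp (g : ℕ) : ∃ (l : List (Fin g → ℤ)), (∀ w ∈ l, Prim w) ∧
    ∀ S : Matrix (Fin g) (Fin g) ℤ, S.IsSymm → ∃ c : List ℤ, c.length = l.length ∧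
      S = (List.zipWith (fun w x => x • vecMulVec w w) l c).sum := by
  classical
  refine ⟨(Finset.univ : Finset (Fin g × Fin g)).toList.map (fun p => 
    if p.1 = p.2 then Pi.single p.1 1 else Pi.single p.1 1 + Pi.single p.2 1), ?_, ?_⟩
  · intro w hw
    obtain ⟨p, -, rfl⟩ := List.mem_map.mp hw
    refine ⟨Pi.single p.1 1, ?_⟩
    by_cases h : p.1 = p.2
    · simp [h]
    · simp [h]
  · intro S hS
    refine ⟨(Finset.univ : Finset (Fin g × Fin g)).toList.map (fun p => 
      if p.1 < p.2 then S p.1 p.2 else if p.1 = p.2 then S p.1 p.1 - ∑ j ∈ Finset.univ.erase p.1, S p.1 j else 0), by simp, ?_⟩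
    rw [List.zipWith_map, List.zipWith_self, Finset.sum_map_toList]
    ext a b
    rw [Matrix.sum_apply, Fintype.sum_prod_type]
    simp only [Matrix.smul_apply, smul_eq_mul, vecMulVec_apply]
    exact ToT_sum S hS a b

theorem ToT_U (l : List (n → ℤ)) : ∀ c : List ℤ,
    UM (List.zipWith (fun w x => x • vecMulVec w w) l c).sum ∈ PT (l.map fun w => Sum.elim w 0) := by
  induction l with
  | nil =>
    intro c
    simp only [List.zipWith_nil_left, List.sum_nil, List.map_nil]
    rw [UM_zero]
    exact Set.mem_singleton 1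
  | cons w l ih =>
    intro c
    cases c with
    | nil =>
      simp only [List.zipWith_nil_right, List.sum_nil]
      rw [UM_zero]
      exact PT_one _
    | cons x c =>
      simp only [List.zipWith_cons_cons, List.sum_cons, List.map_cons]
      rw [← UM_mul_UM]
      exact ⟨x, _, ih c, by rw [tv_inl]⟩

theorem ToT_L (l : List (n → ℤ)) : ∀ c : List ℤ,
    LM (List.zipWith (fun w x => x • vecMulVec w w) l c).sum ∈ PT (l.map fun w => Sum.elim 0 w) := by
  induction l with
  | nil =>
    intro c
    simp only [List.zipWith_nil_left, List.sum_nil, List.map_nil]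
    rw [LM_zero]
    exact Set.mem_singleton 1
  | cons w l ih =>
    intro c
    cases c with
    | nil =>
      simp only [List.zipWith_nil_right, List.sum_nil]
      rw [LM_zero]
      exact PT_one _
    | cons x c =>
      simp only [List.zipWith_cons_cons, List.sum_cons, List.map_cons]
      rw [← LM_mul_LM]
      exact ⟨-x, _, ih c, by rw [tv_inr, neg_smul, neg_neg]⟩

theorem U_PT (g : ℕ) : ∃ l : List (Fin g ⊕ Fin g → ℤ), (∀ v ∈ l, Prim v) ∧
    ∀ S : Matrix (Fin g) (Fin g) ℤ, S.IsSymm → UM S ∈ PT l := by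
  obtain ⟨l, h1, h2⟩ := symm_decomp g
  refine ⟨l.map fun w => Sum.elim w 0, ?_, ?_⟩
  · intro v hv
    obtain ⟨w, hw, rfl⟩ := List.mem_map.mp hv
    obtain ⟨u, hu⟩ := h1 w hw
    exact ⟨Sum.elim u 0, by simpa [dotProduct, Fintype.sum_sum_type] using hu⟩
  · intro S hS
    obtain ⟨c, -, h⟩ := h2 S hS
    rw [h]
    exact ToT_U l c

theorem L_PT (g : ℕ) : ∃ l : List (Fin g ⊕ Fin g → ℤ), (∀ v ∈ l, Prim v) ∧
    ∀ S : Matrix (Fin g) (Fin g) ℤ, S.IsSymm → LM S ∈ PT l := by
  obtain ⟨l, h1, h2⟩ := symm_decomp g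
  refine ⟨l.map fun w => Sum.elim 0 w, ?_, ?_⟩
  · intro v hv
    obtain ⟨w, hw, rfl⟩ := List.mem_map.mp hv
    obtain ⟨u, hu⟩ := h1 w hw
    exact ⟨Sum.elim 0 u, by simpa [dotProduct, Fintype.sum_sum_type] using hu⟩
  · intro S hS
    obtain ⟨c, -, h⟩ := h2 S hS
    rw [h]
    exact ToT_L l c

end Pool.Agent.Lib.MP_05cdf2_gt.C
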