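import Pool.Agent.Lib.MP_05cdf2_gt.C.Big
import Pool.Agent.Lib.MP_05cdf2_gt.C.ToT

/-!
MP_05cdf2_gt, stream (C), JOB C_Final: bounded generation.

* `UL_PT`: if `UM S, LM S ∈ PT l0` for all symmetric `S` (`l0 = lU ++ lL`: `UM S * 1`, `1 * LM S`),
  then `UL K M → M ∈ PT (l0 repeated K times)`: the list `(List.replicate K l0).flatten`; induction
  with `BP.ind` (for the monotonicity: `PT_append` with `PT_one`).
* `bounded_generation`.
* `bounded_generation'`: the same with the list written as a family indexed by `Fin N`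
  (`List.ofFn`, `List.get`).
-/

set_option autoImplicit false
set_option linter.unusedSectionVars false
set_option linter.unusedVariables false

namespace Pool.Agent.Lib.MP_05cdf2_gt.C
open Matrix

theorem Final_UL_PT {n : Type*} [Fintype n] [DecidableEq n] {l0 : List (n ⊕ n → ℤ)}
    (hU : ∀ S : Matrix n n ℤ, S.IsSymm → UM S ∈ PT l0) (hL : ∀ S : Matrix n n ℤ, S.IsSymm → LM S ∈ PT l0)
    {K : ℕ} {M : Matrix (n ⊕ n) (n ⊕ n) ℤ} (hM : UL K M) : M ∈ PT (List.replicate K l0).flatten := by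
  refine BP.ind (P := fun k x => x ∈ PT (List.replicate k l0).flatten) ?_ ?_ ?_ hM
  · simp [PT]
  · intro k m x hkm hx
    obtain ⟨j, rfl⟩ := Nat.exists_eq_add_of_le hkm
    have h1 := PT_append hx (PT_one (List.replicate j l0).flatten)
    rw [mul_one, ← List.flatten_append, List.replicate_append_replicate] at h1
    exact h1
  · rintro k y x ⟨S, hS, h | h⟩ _ hx
    · have h1 := PT_append (hU S hS) hx
      rw [← h] at h1
      rw [List.replicate_succ, List.flatten_cons]
      exact h1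
    · have h1 := PT_append (hL S hS) hx
      rw [← h] at h1
      rw [List.replicate_succ, List.flatten_cons]
      exact h1

theorem Final_get {n : Type*} [Fintype n] [DecidableEq n] (l : List (n ⊕ n → ℤ)) :
    ∀ M : Matrix (n ⊕ n) (n ⊕ n) ℤ, M ∈ PT l →
      ∃ e : Fin l.length → ℤ, M = (List.ofFn fun i => tv (l.get i) (e i)).prod := by
  induction l with
  | nil =>
    intro M hM
    refine ⟨fun i => i.elim0, ?_⟩
    simpa [PT] using hM
  | cons v l ih =>
    rintro M ⟨k, M', hM', rfl⟩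
    obtain ⟨e, he⟩ := ih M' hM'
    refine ⟨Fin.cons k e, ?_⟩
    rw [he]
    simp only [List.length_cons]
    rw [List.ofFn_succ, List.prod_cons]
    rfl

theorem bounded_generation (g : ℕ) (hg : 3 ≤ g) :
    ∃ l : List (Fin g ⊕ Fin g → ℤ), (∀ v ∈ l, Prim v) ∧
      ∀ M ∈ symplecticGroup (Fin g) ℤ, M ∈ PT l := by
  obtain ⟨K, hK⟩ := ul_all (Fin g) (by simpa using hg)
  obtain ⟨lU, hU1, hU2⟩ := U_PT g
  obtain ⟨lL, hL1, hL2⟩ := L_PT g
  refine ⟨(List.replicate K (lU ++ lL)).flatten, ?_, ?_⟩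
  · intro v hv
    obtain ⟨l, hl, hvl⟩ := List.mem_flatten.1 hv
    rw [(List.mem_replicate.1 hl).2] at hvl
    rcases List.mem_append.1 hvl with h | h
    · exact hU1 v h
    · exact hL1 v h
  · intro M hM
    refine Final_UL_PT (fun S hS => ?_) (fun S hS => ?_) (hK M hM)
    · have h1 := PT_append (hU2 S hS) (PT_one lL)
      rwa [mul_one] at h1
    · have h1 := PT_append (PT_one lU) (hL2 S hS)
      rwa [one_mul] at h1

theorem bounded_generation' (g : ℕ) (hg : 3 ≤ g) :
    ∃ (N : ℕ) (v : Fin N → (Fin g ⊕ Fin g → ℤ)), (∀ i, Prim (v i)) ∧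
      ∀ M ∈ symplecticGroup (Fin g) ℤ, ∃ e : Fin N → ℤ,
        M = (List.ofFn fun i => tv (v i) (e i)).prod := by
  obtain ⟨l, h1, h2⟩ := bounded_generation g hg
  exact ⟨l.length, fun i => l.get i, fun i => h1 _ (List.get_mem l i), fun M hM => Final_get l M (h2 M hM)⟩

end Pool.Agent.Lib.MP_05cdf2_gt.C
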