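import Pool.Agent.Lib.MP_05cdf2_gt.C.DMap

/-!
MP_05cdf2_gt, stream (C), JOB C_Long: long root matrices from short root matrices.

For `a d - b c = 1` (checked numerically; all `3 × 3` blocks):
`Lam 0 a (-b^2) (c^2) (d*(1-b*c)) = LM !![0,c,0; c,-a,0; 0,0,0]
  * fromBlocks (B12 a b c d) 0 0 (B12 d (-c) (-b) a)
  * UM !![0,-b,0; -b,a,0; 0,0,0]
  * LM !![0,-c,0; -c,-d-b*c*d,0; 0,0,0]
  * fromBlocks (B12 1 (-b*d) 0 1) 0 0 (B12 1 0 (b*d) 1)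
  * (UM !![0,0,0; 0,-1,0; 0,0,0] * LM !![0,0,0; 0,1,0; 0,0,0] * UM !![0,0,0; 0,-1,0; 0,0,0])`.
Multiply step by step with `fromBlocks_multiply`; every block is an explicit `3 × 3` matrix
(`Matrix.mul_fin_three` or `ext i j; fin_cases i <;> fin_cases j <;> simp`), the entries agree
modulo the relation `a d - b c = 1` (`linear_combination (coeff) * h`).
Count: `1 + 6 * k + 1 + 1 + 6 + 3`.
-/

set_option autoImplicit false
set_option linter.unusedSectionVars false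
set_option linter.unusedVariables false

namespace Pool.Agent.Lib.MP_05cdf2_gt.C
open Matrix

theorem long_w1 :
    (UM !![0, 0, 0; 0, -1, 0; 0, 0, 0] * LM !![0, 0, 0; 0, 1, 0; 0, 0, 0] :
      Matrix (Fin 3 ⊕ Fin 3) (Fin 3 ⊕ Fin 3) ℤ) = fromBlocks
      (!![1, 0, 0; 0, 0, 0; 0, 0, 1])
      (!![0, 0, 0; 0, -1, 0; 0, 0, 0])
      (!![0, 0, 0; 0, 1, 0; 0, 0, 0])
      (!![1, 0, 0; 0, 1, 0; 0, 0, 1]) := by
  unfold UM LM
  rw [fromBlocks_multiply]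
  rw [fromBlocks_inj]
  refine ⟨?_, ?_, ?_, ?_⟩ <;>
    (ext i j; fin_cases i <;> fin_cases j <;>
      simp <;> ring)

theorem long_w2 :
    (UM !![0, 0, 0; 0, -1, 0; 0, 0, 0] * LM !![0, 0, 0; 0, 1, 0; 0, 0, 0] *
        UM !![0, 0, 0; 0, -1, 0; 0, 0, 0] :
      Matrix (Fin 3 ⊕ Fin 3) (Fin 3 ⊕ Fin 3) ℤ) = fromBlocks
      (!![1, 0, 0; 0, 0, 0; 0, 0, 1])
      (!![0, 0, 0; 0, -1, 0; 0, 0, 0])
      (!![0, 0, 0; 0, 1, 0; 0, 0, 0])
      (!![1, 0, 0; 0, 0, 0; 0, 0, 1]) := by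
  rw [long_w1]
  unfold UM
  rw [fromBlocks_multiply]
  rw [fromBlocks_inj]
  refine ⟨?_, ?_, ?_, ?_⟩ <;>
    (ext i j; fin_cases i <;> fin_cases j <;>
      simp <;> ring)

theorem long_s1 (a b c d : ℤ) :
    (LM !![0, c, 0; c, -a, 0; 0, 0, 0] * fromBlocks (B12 a b c d) 0 0 (B12 d (-c) (-b) a) :
      Matrix (Fin 3 ⊕ Fin 3) (Fin 3 ⊕ Fin 3) ℤ) = fromBlocks
      (!![a, b, 0; c, d, 0; 0, 0, 1])
      (!![0, 0, 0; 0, 0, 0; 0, 0, 0])
      (!![c ^ 2, c * d, 0; 0, -a * d + b * c, 0; 0, 0, 0])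
      (!![d, -c, 0; -b, a, 0; 0, 0, 1]) := by
  unfold LM B12
  rw [fromBlocks_multiply]
  rw [fromBlocks_inj]
  refine ⟨?_, ?_, ?_, ?_⟩ <;>
    (ext i j; fin_cases i <;> fin_cases j <;>
      simp <;> ring)

theorem long_s2 (a b c d : ℤ) :
    ((fromBlocks
      (!![a, b, 0; c, d, 0; 0, 0, 1])
      (!![0, 0, 0; 0, 0, 0; 0, 0, 0])
      (!![c ^ 2, c * d, 0; 0, -a * d + b * c, 0; 0, 0, 0])
      (!![d, -c, 0; -b, a, 0; 0, 0, 1])) * UM !![0, -b, 0; -b, a, 0; 0, 0, 0] :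
      Matrix (Fin 3 ⊕ Fin 3) (Fin 3 ⊕ Fin 3) ℤ) = fromBlocks
      (!![a, b, 0; c, d, 0; 0, 0, 1])
      (!![-b ^ 2, 0, 0; -b * d, a * d - b * c, 0; 0, 0, 0])
      (!![c ^ 2, c * d, 0; 0, -a * d + b * c, 0; 0, 0, 0])
      (!![-b * c * d + d, a * c * d - b * c ^ 2 - c, 0; a * b * d - b ^ 2 * c - b, -a ^ 2 * d + a * b * c + a, 0; 0, 0, 1]) := by
  unfold UM
  rw [fromBlocks_multiply]
  rw [fromBlocks_inj]
  refine ⟨?_, ?_, ?_, ?_⟩ <;>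
    (ext i j; fin_cases i <;> fin_cases j <;>
      simp <;> ring)

theorem long_s3 (a b c d : ℤ) :
    ((fromBlocks
      (!![a, b, 0; c, d, 0; 0, 0, 1])
      (!![-b ^ 2, 0, 0; -b * d, a * d - b * c, 0; 0, 0, 0])
      (!![c ^ 2, c * d, 0; 0, -a * d + b * c, 0; 0, 0, 0])
      (!![-b * c * d + d, a * c * d - b * c ^ 2 - c, 0; a * b * d - b ^ 2 * c - b, -a ^ 2 * d + a * b * c + a, 0; 0, 0, 1])) * LM !![0, -c, 0; -c, -d - b * c * d, 0; 0, 0, 0] :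
      Matrix (Fin 3 ⊕ Fin 3) (Fin 3 ⊕ Fin 3) ℤ) = fromBlocks
      (!![a, b ^ 2 * c + b, 0; -a * c * d + b * c ^ 2 + c, -a * b * c * d ^ 2 - a * d ^ 2 + b ^ 2 * c ^ 2 * d + 2 * b * c * d + d, 0; 0, 0, 1])
      (!![-b ^ 2, 0, 0; -b * d, a * d - b * c, 0; 0, 0, 0])
      (!![-a * c ^ 2 * d + b * c ^ 3 + 2 * c ^ 2, -a * b * c ^ 2 * d ^ 2 - a * c * d ^ 2 + b ^ 2 * c ^ 3 * d + 3 * b * c ^ 2 * d + c * d, 0; a ^ 2 * c * d - a * b * c ^ 2 - a * c, a ^ 2 * b * c * d ^ 2 + a ^ 2 * d ^ 2 - a * b ^ 2 * c ^ 2 * d - 3 * a * b * c * d - 2 * a * d + b ^ 2 * c ^ 2 + 2 * b * c, 0; 0, 0, 0])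
      (!![-b * c * d + d, a * c * d - b * c ^ 2 - c, 0; a * b * d - b ^ 2 * c - b, -a ^ 2 * d + a * b * c + a, 0; 0, 0, 1]) := by
  unfold LM
  rw [fromBlocks_multiply]
  rw [fromBlocks_inj]
  refine ⟨?_, ?_, ?_, ?_⟩ <;>
    (ext i j; fin_cases i <;> fin_cases j <;>
      simp <;> ring)

theorem long_s4 (a b c d : ℤ) :
    ((fromBlocks
      (!![a, b ^ 2 * c + b, 0; -a * c * d + b * c ^ 2 + c, -a * b * c * d ^ 2 - a * d ^ 2 + b ^ 2 * c ^ 2 * d + 2 * b * c * d + d, 0; 0, 0, 1])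
      (!![-b ^ 2, 0, 0; -b * d, a * d - b * c, 0; 0, 0, 0])
      (!![-a * c ^ 2 * d + b * c ^ 3 + 2 * c ^ 2, -a * b * c ^ 2 * d ^ 2 - a * c * d ^ 2 + b ^ 2 * c ^ 3 * d + 3 * b * c ^ 2 * d + c * d, 0; a ^ 2 * c * d - a * b * c ^ 2 - a * c, a ^ 2 * b * c * d ^ 2 + a ^ 2 * d ^ 2 - a * b ^ 2 * c ^ 2 * d - 3 * a * b * c * d - 2 * a * d + b ^ 2 * c ^ 2 + 2 * b * c, 0; 0, 0, 0])
      (!![-b * c * d + d, a * c * d - b * c ^ 2 - c, 0; a * b * d - b ^ 2 * c - b, -a ^ 2 * d + a * b * c + a, 0; 0, 0, 1])) * fromBlocks (B12 1 (-b * d) 0 1) 0 0 (B12 1 0 (b * d) 1) :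
      Matrix (Fin 3 ⊕ Fin 3) (Fin 3 ⊕ Fin 3) ℤ) = fromBlocks
      (!![a, -a * b * d + b ^ 2 * c + b, 0; -a * c * d + b * c ^ 2 + c, -a * d ^ 2 + b * c * d + d, 0; 0, 0, 1])
      (!![-b ^ 2, 0, 0; a * b * d ^ 2 - b ^ 2 * c * d - b * d, a * d - b * c, 0; 0, 0, 0])
      (!![-a * c ^ 2 * d + b * c ^ 3 + 2 * c ^ 2, -a * c * d ^ 2 + b * c ^ 2 * d + c * d, 0; a ^ 2 * c * d - a * b * c ^ 2 - a * c, a ^ 2 * d ^ 2 - 2 * a * b * c * d - 2 * a * d + b ^ 2 * c ^ 2 + 2 * b * c, 0; 0, 0, 0])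
      (!![a * b * c * d ^ 2 - b ^ 2 * c ^ 2 * d - 2 * b * c * d + d, a * c * d - b * c ^ 2 - c, 0; -a ^ 2 * b * d ^ 2 + a * b ^ 2 * c * d + 2 * a * b * d - b ^ 2 * c - b, -a ^ 2 * d + a * b * c + a, 0; 0, 0, 1]) := by
  unfold B12
  rw [fromBlocks_multiply]
  rw [fromBlocks_inj]
  refine ⟨?_, ?_, ?_, ?_⟩ <;>
    (ext i j; fin_cases i <;> fin_cases j <;>
      simp <;> ring)

theorem long_s5 (a b c d : ℤ) :
    ((fromBlocks
      (!![a, -a * b * d + b ^ 2 * c + b, 0; -a * c * d + b * c ^ 2 + c, -a * d ^ 2 + b * c * d + d, 0; 0, 0, 1])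
      (!![-b ^ 2, 0, 0; a * b * d ^ 2 - b ^ 2 * c * d - b * d, a * d - b * c, 0; 0, 0, 0])
      (!![-a * c ^ 2 * d + b * c ^ 3 + 2 * c ^ 2, -a * c * d ^ 2 + b * c ^ 2 * d + c * d, 0; a ^ 2 * c * d - a * b * c ^ 2 - a * c, a ^ 2 * d ^ 2 - 2 * a * b * c * d - 2 * a * d + b ^ 2 * c ^ 2 + 2 * b * c, 0; 0, 0, 0])
      (!![a * b * c * d ^ 2 - b ^ 2 * c ^ 2 * d - 2 * b * c * d + d, a * c * d - b * c ^ 2 - c, 0; -a ^ 2 * b * d ^ 2 + a * b ^ 2 * c * d + 2 * a * b * d - b ^ 2 * c - b, -a ^ 2 * d + a * b * c + a, 0; 0, 0, 1])) * (fromBlocks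
      (!![1, 0, 0; 0, 0, 0; 0, 0, 1])
      (!![0, 0, 0; 0, -1, 0; 0, 0, 0])
      (!![0, 0, 0; 0, 1, 0; 0, 0, 0])
      (!![1, 0, 0; 0, 0, 0; 0, 0, 1])) :
      Matrix (Fin 3 ⊕ Fin 3) (Fin 3 ⊕ Fin 3) ℤ) = fromBlocks
      (!![a, 0, 0; -a * c * d + b * c ^ 2 + c, a * d - b * c, 0; 0, 0, 1])
      (!![-b ^ 2, a * b * d - b ^ 2 * c - b, 0; a * b * d ^ 2 - b ^ 2 * c * d - b * d, a * d ^ 2 - b * c * d - d, 0; 0, 0, 0])
      (!![-a * c ^ 2 * d + b * c ^ 3 + 2 * c ^ 2, a * c * d - b * c ^ 2 - c, 0; a ^ 2 * c * d - a * b * c ^ 2 - a * c, -a ^ 2 * d + a * b * c + a, 0; 0, 0, 0])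
      (!![a * b * c * d ^ 2 - b ^ 2 * c ^ 2 * d - 2 * b * c * d + d, a * c * d ^ 2 - b * c ^ 2 * d - c * d, 0; -a ^ 2 * b * d ^ 2 + a * b ^ 2 * c * d + 2 * a * b * d - b ^ 2 * c - b, -a ^ 2 * d ^ 2 + 2 * a * b * c * d + 2 * a * d - b ^ 2 * c ^ 2 - 2 * b * c, 0; 0, 0, 1]) := by
  rw [fromBlocks_multiply]
  rw [fromBlocks_inj]
  refine ⟨?_, ?_, ?_, ?_⟩ <;>
    (ext i j; fin_cases i <;> fin_cases j <;>
      simp <;> ring)

theorem long_fin (a b c d : ℤ) (h : a * d - b * c = 1) :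
    Lam (0 : Fin 3) a (-b ^ 2) (c ^ 2) (d * (1 - b * c)) = fromBlocks
      (!![a, 0, 0; -a * c * d + b * c ^ 2 + c, a * d - b * c, 0; 0, 0, 1])
      (!![-b ^ 2, a * b * d - b ^ 2 * c - b, 0; a * b * d ^ 2 - b ^ 2 * c * d - b * d, a * d ^ 2 - b * c * d - d, 0; 0, 0, 0])
      (!![-a * c ^ 2 * d + b * c ^ 3 + 2 * c ^ 2, a * c * d - b * c ^ 2 - c, 0; a ^ 2 * c * d - a * b * c ^ 2 - a * c, -a ^ 2 * d + a * b * c + a, 0; 0, 0, 0])
      (!![a * b * c * d ^ 2 - b ^ 2 * c ^ 2 * d - 2 * b * c * d + d, a * c * d ^ 2 - b * c ^ 2 * d - c * d, 0; -a ^ 2 * b * d ^ 2 + a * b ^ 2 * c * d + 2 * a * b * d - b ^ 2 * c - b, -a ^ 2 * d ^ 2 + 2 * a * b * c * d + 2 * a * d - b ^ 2 * c ^ 2 - 2 * b * c, 0; 0, 0, 1]) := by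
  unfold Lam
  rw [fromBlocks_inj]
  refine ⟨?_, ?_, ?_, ?_⟩ <;>
    (ext i j; fin_cases i <;> fin_cases j <;>
      simp <;>
      first
        | linear_combination (-b) * h
        | linear_combination (-(-b)) * h
        | linear_combination (c) * h
        | linear_combination (-(c)) * h
        | linear_combination (-1) * h
        | linear_combination (-(-1)) * h
        | linear_combination (-b * d) * h
        | linear_combination (-(-b * d)) * h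
        | linear_combination (-d) * h
        | linear_combination (-(-d)) * h
        | linear_combination (c ^ 2) * h
        | linear_combination (-(c ^ 2)) * h
        | linear_combination (-c) * h
        | linear_combination (-(-c)) * h
        | linear_combination (-b * c * d) * h
        | linear_combination (-(-b * c * d)) * h
        | linear_combination (-c * d) * h
        | linear_combination (-(-c * d)) * h
        | linear_combination (-a * c) * h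
        | linear_combination (-(-a * c)) * h
        | linear_combination (a) * h
        | linear_combination (-(a)) * h
        | linear_combination (a * b * d - b) * h
        | linear_combination (-(a * b * d - b)) * h
        | linear_combination (a * d - b * c - 1) * h
        | linear_combination (-(a * d - b * c - 1)) * h)

theorem long_identity (a b c d : ℤ) (h : a * d - b * c = 1) :
    Lam (0 : Fin 3) a (-b ^ 2) (c ^ 2) (d * (1 - b * c)) =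
      LM !![0, c, 0; c, -a, 0; 0, 0, 0] *
      fromBlocks (B12 a b c d) 0 0 (B12 d (-c) (-b) a) *
      UM !![0, -b, 0; -b, a, 0; 0, 0, 0] *
      LM !![0, -c, 0; -c, -d - b * c * d, 0; 0, 0, 0] *
      fromBlocks (B12 1 (-b * d) 0 1) 0 0 (B12 1 0 (b * d) 1) *
      (UM !![0, 0, 0; 0, -1, 0; 0, 0, 0] * LM !![0, 0, 0; 0, 1, 0; 0, 0, 0] *
        UM !![0, 0, 0; 0, -1, 0; 0, 0, 0]) := by
  rw [long_s1, long_s2, long_s3, long_s4, long_w2, long_s5]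
  exact long_fin a b c d h

theorem ul_long {k : ℕ} (a b c d : ℤ) (h : a * d - b * c = 1) (hk : EL k (B12 a b c d)) :
    UL (6 * k + 12) (Lam (0 : Fin 3) a (-b ^ 2) (c ^ 2) (d * (1 - b * c))) := by
  have s1 : (!![0, c, 0; c, -a, 0; 0, 0, 0] : Matrix (Fin 3) (Fin 3) ℤ).IsSymm := by
    ext i j
    fin_cases i <;> fin_cases j <;> rfl
  have s2 : (!![0, -b, 0; -b, a, 0; 0, 0, 0] : Matrix (Fin 3) (Fin 3) ℤ).IsSymm := by
    ext i j
    fin_cases i <;> fin_cases j <;> rfl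
  have s3 : (!![0, -c, 0; -c, -d - b * c * d, 0; 0, 0, 0] :
      Matrix (Fin 3) (Fin 3) ℤ).IsSymm := by
    ext i j
    fin_cases i <;> fin_cases j <;> rfl
  have s4 : (!![0, 0, 0; 0, -1, 0; 0, 0, 0] : Matrix (Fin 3) (Fin 3) ℤ).IsSymm := by
    ext i j
    fin_cases i <;> fin_cases j <;> rfl
  have s5 : (!![0, 0, 0; 0, 1, 0; 0, 0, 0] : Matrix (Fin 3) (Fin 3) ℤ).IsSymm := by
    ext i j
    fin_cases i <;> fin_cases j <;> rfl
  have e1 : EL 1 (B12 1 (-b * d) 0 1) := by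
    refine BP.of_mem ⟨0, 1, -b * d, by decide, ?_⟩
    unfold B12
    ext i j
    fin_cases i <;> fin_cases j <;> simp
  have e2 : UL (6 * 1) (fromBlocks (B12 1 (-b * d) 0 1) 0 0 (B12 1 0 (b * d) 1)) := by
    have := ul_DB (a := 1) (b := -b * d) (c := 0) (d := 1) (by ring) e1
    rw [neg_zero, show -(-b * d) = b * d by ring] at this
    exact this
  rw [long_identity a b c d h]
  have h1 := (((((ul_L s1).mul (ul_DB h hk)).mul (ul_U s2)).mul (ul_L s3)).mul e2).mul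
    (((ul_U s4).mul (ul_L s5)).mul (ul_U s4))
  exact h1.mono (by omega)

end Pool.Agent.Lib.MP_05cdf2_gt.C
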