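import Pool.Agent.Lib.MP_05cdf2_gt.C.El

/-!
MP_05cdf2_gt, stream (C), JOB C_Mult: multiplicativity of Mennicke symbols, quantitatively.

Put `M = B12 a (b1*b2) c d`, `a*d - b1*b2*c = 1`. The identity (checked numerically) is
`M * E13(b1*d) * E23(-b1*c) * E32(-b2) = E21(c*d) * E31(-b2*c) * B23 d (-b1*c) (-b2) a *
 B13 a b1 (b2*c) d`, where `Eij(t)` is the elementary matrix with `t` at the place `i,j`;
so `M = E21(c*d) * E31(-b2*c) * B23 d (-b1*c) (-b2) a * B13 a b1 (b2*c) d * E32(b2) *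
 E23(b1*c) * E13(-b1*d)`.
`B13 a b1 (b2*c) d` is `EL (k1+12)` by `EL.b13`; `B23 d (-b1*c) (-b2) a` is `EL (k2+24)` by
`EL.adj` and `EL.b23` applied to `h2`.
-/

set_option autoImplicit false
set_option linter.unusedSectionVars false
set_option linter.unusedVariables false

namespace Pool.Agent.Lib.MP_05cdf2_gt.C
open Matrix

private theorem Mult_mul3 (a b c d e f g h i a' b' c' d' e' f' g' h' i' : ℤ) :
    (!![a, b, c; d, e, f; g, h, i] : Matrix (Fin 3) (Fin 3) ℤ) * !![a', b', c'; d', e', f'; g', h', i'] =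
    !![a * a' + b * d' + c * g', a * b' + b * e' + c * h', a * c' + b * f' + c * i';
       d * a' + e * d' + f * g', d * b' + e * e' + f * h', d * c' + e * f' + f * i';
       g * a' + h * d' + i * g', g * b' + h * e' + i * h', g * c' + h * f' + i * i'] := by
  ext r s
  fin_cases r <;> fin_cases s <;> simp [Matrix.mul_apply, Fin.sum_univ_three]

private theorem Mult_ext3 {a b c d e f g h i a' b' c' d' e' f' g' h' i' : ℤ} (h1 : a = a') (h2 : b = b')
    (h3 : c = c') (h4 : d = d') (h5 : e = e') (h6 : f = f') (h7 : g = g') (h8 : h = h') (h9 : i = i') :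
    (!![a, b, c; d, e, f; g, h, i] : Matrix (Fin 3) (Fin 3) ℤ) = !![a', b', c'; d', e', f'; g', h', i'] := by
  subst h1 h2 h3 h4 h5 h6 h7 h8 h9
  rfl

theorem mult {k1 k2 : ℕ} {a b1 b2 c d : ℤ} (h : a * d - b1 * b2 * c = 1)
    (h1 : EL k1 (B12 a b1 (b2 * c) d)) (h2 : EL k2 (B12 a b2 (b1 * c) d)) :
    EL (k1 + k2 + 41) (B12 a (b1 * b2) c d) := by
  have h3 := EL.b23 (EL.adj h2)
  have h4 := EL.b13 h1
  -- the left part
  have h5 := (((el_E21 (c * d)).mul (el_E31 (-(b2 * c)))).mul h3).mul h4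
  have e1 : !![1, 0, 0; c * d, 1, 0; 0, 0, 1] * !![1, 0, 0; 0, 1, 0; -(b2 * c), 0, 1] *
      B23 d (-(b1 * c)) (-b2) a * B13 a b1 (b2 * c) d = !![a, 0, b1; c, d, 0; 0, -b2, 1] := by
    unfold B23 B13
    rw [Mult_mul3, Mult_mul3, Mult_mul3]
    exact Mult_ext3 (by ring) (by ring) (by ring) (by linear_combination c * h) (by ring) (by ring) (by ring)
      (by ring) (by linear_combination h)
  rw [e1] at h5
  have h6 := ((h5.mul (el_E32 b2)).mul (el_E23 (b1 * c))).mul (el_E13 (-(b1 * d)))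
  have e2 : !![a, 0, b1; c, d, 0; 0, -b2, 1] * !![1, 0, 0; 0, 1, 0; 0, b2, 1] *
      !![1, 0, 0; 0, 1, b1 * c; 0, 0, 1] * !![1, 0, -(b1 * d); 0, 1, 0; 0, 0, 1] = B12 a (b1 * b2) c d := by
    unfold B12
    rw [Mult_mul3, Mult_mul3, Mult_mul3]
    exact Mult_ext3 (by ring) (by ring) (by linear_combination (-b1) * h) (by ring) (by ring) (by ring) (by ring)
      (by ring) (by ring)
  rw [e2] at h6
  exact h6.mono (by omega)

theorem FR.mul {k1 k2 : ℕ} {a b1 b2 : ℤ} (h1 : FR k1 a b1) (h2 : FR k2 a b2) :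
    FR (k1 + k2 + 41) a (b1 * b2) := by
  intro c d hcd
  exact mult hcd (h1 _ _ (by linear_combination hcd)) (h2 _ _ (by linear_combination hcd))

end Pool.Agent.Lib.MP_05cdf2_gt.C
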