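import Pool.Agent.Lib.MP_05cdf2_gt.C.SqOne

/-!
MP_05cdf2_gt, stream (C), JOB C_Pow: the power lemma.

Let `A = !![a, b; c, d]`, `det A = 1`, `n : ℕ`.
1. (`pow_form`) By induction on `n` there are integers `f, g` with `A ^ n = f • 1 + g • A`
   (`A^2 = (a+d) A - 1`); and `b ∣ f + g * a - a ^ n` (induction: from `(f, g)` to
   `(f', g') = (-g, f + g * (a + d))`, and `f' + g' a = (f + g a) a + g (a d - 1) =
   (f + g a) a + g b c`). Also `det (A^n) = 1` gives `f^2 + f*g*(a+d) + g^2 = 1`, so `g ∣ f^2 - 1`.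
   (This can also be included in the induction.)
2. (`pow_el`) Assume `b ∣ a^n - 1` or `b ∣ a^n + 1`. Then `FR 9 (f + g*a) b` by `FR.modeq` and
   `FR.one`/`FR.neg_one`; `FR 61 (f + g*a) g` by `FR.modeq` and `fr_sq`. So by `FR.mul`
   `FR (9 + 61 + 41) (f+g*a) (b*g)`, and `A^n = !![f+g*a, g*b; g*c, f+g*d]` has determinant one.
3. (`pow_el'`) Transpose: `(Aᵀ)^n = (A^n)ᵀ` and `EL.tr12`.
-/

set_option autoImplicit false
set_option linter.unusedSectionVars false
set_option linter.unusedVariables false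

namespace Pool.Agent.Lib.MP_05cdf2_gt.C
open Matrix

theorem pow_form (a b c d : ℤ) (h : a * d - b * c = 1) (n : ℕ) :
    ∃ f g : ℤ, (!![a, b; c, d] : Matrix (Fin 2) (Fin 2) ℤ) ^ n =
        !![f + g * a, g * b; g * c, f + g * d] ∧ b ∣ f + g * a - a ^ n ∧ g ∣ f ^ 2 - 1 ∧
        (f + g * a) * (f + g * d) - (g * b) * (g * c) = 1 := by
  induction n with
  | zero =>
    refine ⟨1, 0, ?_, ?_, ?_, ?_⟩
    · rw [pow_zero, Matrix.one_fin_two]
      simp
    · simp
    · simp
    · ring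
  | succ n ih =>
    obtain ⟨f, g, h1, ⟨k, hk⟩, h3, h4⟩ := ih
    refine ⟨-g, f + g * (a + d), ?_, ?_, ?_, ?_⟩
    · rw [pow_succ, h1]
      ext i j
      fin_cases i <;> fin_cases j <;> simp [Matrix.mul_apply, Fin.sum_univ_two]
      · linear_combination -g * h
      · ring
      · ring
      · linear_combination -g * h
    · refine ⟨k * a + g * c, ?_⟩
      rw [pow_succ]
      linear_combination a * hk + g * h
    · refine ⟨-f, ?_⟩
      linear_combination h4 - g ^ 2 * h
    · linear_combination h4 + ((f + g * (a + d)) ^ 2 - g ^ 2) * h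

/-- the embedding of `2 × 2` matrices -/
def emb (A : Matrix (Fin 2) (Fin 2) ℤ) : Matrix (Fin 3) (Fin 3) ℤ :=
  B12 (A 0 0) (A 0 1) (A 1 0) (A 1 1)

theorem emb_mul (A B : Matrix (Fin 2) (Fin 2) ℤ) : emb (A * B) = emb A * emb B := by
  unfold emb B12
  ext i j
  fin_cases i <;> fin_cases j <;> simp [Matrix.mul_apply, Fin.sum_univ_succ]

theorem emb_one : emb 1 = 1 := by
  unfold emb B12
  ext i j
  fin_cases i <;> fin_cases j <;> simp

theorem pow_el (a b c d : ℤ) (h : a * d - b * c = 1) (n : ℕ)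
    (hn : b ∣ a ^ n - 1 ∨ b ∣ a ^ n + 1) :
    EL 120 (emb ((!![a, b; c, d] : Matrix (Fin 2) (Fin 2) ℤ) ^ n)) := by
  obtain ⟨f, g, h1, h2, h3, h4⟩ := pow_form a b c d h n
  have e1 : FR 9 (f + g * a) b := by
    rcases hn with hn | hn
    · have h5 : b ∣ (f + g * a) - 1 := by
        have := dvd_add h2 hn
        rwa [sub_add_sub_cancel] at this
      exact (FR.modeq h5 (FR.one b)).mono (by norm_num)
    · have h5 : b ∣ (f + g * a) - (-1) := by
        have := dvd_add h2 hn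
        rw [sub_neg_eq_add]
        have e : f + g * a - a ^ n + (a ^ n + 1) = f + g * a + 1 := by ring
        rwa [e] at this
      exact FR.modeq h5 (FR.neg_one b)
  have e2 : FR 61 (f + g * a) g := FR.modeq ⟨a, by ring⟩ (fr_sq h3)
  have e3 := (e1.mul e2) (g * c) (f + g * d) (by linear_combination h4)
  rw [h1]
  have e4 : emb !![f + g * a, g * b; g * c, f + g * d] = B12 (f + g * a) (b * g) (g * c) (f + g * d) := by
    unfold emb B12
    simp [mul_comm]
  rw [e4]
  exact e3.mono (by norm_num)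

theorem pow_el' (a b c d : ℤ) (h : a * d - b * c = 1) (n : ℕ)
    (hn : c ∣ a ^ n - 1 ∨ c ∣ a ^ n + 1) :
    EL 120 (emb ((!![a, b; c, d] : Matrix (Fin 2) (Fin 2) ℤ) ^ n)) := by
  have h1 := pow_el a c b d (by linear_combination h) n hn
  have h2 : (!![a, c; b, d] : Matrix (Fin 2) (Fin 2) ℤ) = (!![a, b; c, d] : Matrix (Fin 2) (Fin 2) ℤ)ᵀ := by
    ext i j
    fin_cases i <;> fin_cases j <;> rfl
  rw [h2, ← Matrix.transpose_pow] at h1
  exact EL.tr12 h1

end Pool.Agent.Lib.MP_05cdf2_gt.C
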