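import Pool.Agent.Lib.MP_05cdf2_gt.C.Defs

/-!
MP_05cdf2_gt, stream (C), JOB C_Primes: primes in arithmetic progressions (Mathlib:
`Nat.forall_exists_prime_gt_and_eq_mod` / `Nat.setOf_prime_and_eq_mod_infinite` in
`Mathlib/NumberTheory/LSeries/PrimesInAP.lean`).

1. `prime_mod`: Dirichlet's theorem for integers: `b` coprime to `m ≠ 0`: there is a prime
   `p ≡ b mod m`, larger than any given bound.
2. `prime_b`: `a` odd, `a, b` coprime: by the Chinese remainder theorem there is an integer `x` with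
   `x ≡ b mod a`, `x ≡ 3 mod 4` (`a` and `4` are coprime: `u a + 4 v = 1`, `x = 3 u a + 4 v b`), then
   `x` is coprime to `4a`; apply 1.
-/

set_option autoImplicit false
set_option linter.unusedSectionVars false
set_option linter.unusedVariables false

namespace Pool.Agent.Lib.MP_05cdf2_gt.C
open Matrix

theorem prime_mod (m b : ℤ) (hm : m ≠ 0) (h : IsCoprime m b) (N : ℕ) :
    ∃ p : ℕ, p.Prime ∧ N < p ∧ m ∣ (p : ℤ) - b := by
  have hq : m.natAbs ≠ 0 := Int.natAbs_ne_zero.2 hm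
  have hc : IsCoprime b (m.natAbs : ℤ) := by
    rw [Int.isCoprime_iff_gcd_eq_one] at h ⊢
    rw [Int.gcd_comm] at h
    rw [← h, Int.gcd, Int.gcd, Int.natAbs_natCast]
  obtain ⟨p, hpN, hp, hmod⟩ := Nat.forall_exists_prime_gt_and_zmodEq N hq hc
  refine ⟨p, hp, hpN, ?_⟩
  have h1 : (m.natAbs : ℤ) ∣ (p : ℤ) - b := hmod.symm.dvd
  exact Int.natAbs_dvd.1 h1

theorem prime_b (a b : ℤ) (ha : Odd a) (h : IsCoprime a b) :
    ∃ p : ℕ, p.Prime ∧ p % 4 = 3 ∧ a ∣ (p : ℤ) - b := by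
  have ha0 : a ≠ 0 := by
    rintro rfl
    exact absurd ha (by decide)
  have h4 : IsCoprime a 4 := by
    obtain ⟨k, hk⟩ := ha
    have h2 : IsCoprime a 2 := ⟨1, -k, by rw [hk]; ring⟩
    have h3 := h2.mul_right h2
    norm_num at h3
    exact h3
  obtain ⟨u, v, huv⟩ := h4
  set x : ℤ := 3 * u * a + 4 * v * b with hx
  have hxb : a ∣ x - b := ⟨u * (3 - b), by rw [hx]; linear_combination b * huv⟩
  have hx3 : (4 : ℤ) ∣ x - 3 := ⟨v * (b - 3), by rw [hx]; linear_combination 3 * huv⟩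
  have hc1 : IsCoprime a x := by
    obtain ⟨k, hk⟩ := hxb
    have h5 : x = b + a * k := by linarith
    rw [h5]
    exact (IsCoprime.add_mul_left_right_iff).2 h
  have hc2 : IsCoprime (4 : ℤ) x := by
    obtain ⟨k, hk⟩ := hx3
    exact ⟨1 + k, -1, by linarith⟩
  obtain ⟨p, hp, _, hpd⟩ := prime_mod (4 * a) x (by omega) (hc2.mul_left hc1) 0
  refine ⟨p, hp, ?_, ?_⟩
  · have h6 : (4 : ℤ) ∣ (p : ℤ) - x := (Dvd.intro a rfl).trans hpd
    obtain ⟨k, hk⟩ := h6
    obtain ⟨k', hk'⟩ := hx3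
    omega
  · have h6 : a ∣ (p : ℤ) - x := (Dvd.intro_left 4 rfl).trans hpd
    have h7 := dvd_add h6 hxb
    rwa [sub_add_sub_cancel] at h7

end Pool.Agent.Lib.MP_05cdf2_gt.C
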