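import Pool.Agent.Lib.MP_05cdf2_gt.C.Defs

/-!
MP_05cdf2_gt, stream (C), JOB C_Surj: linear algebra over `Z` for the reduction.

* `symm_surj`: `S = u zᵀ + z uᵀ - (x ⬝ z) u uᵀ` (`vecMulVec`); `x S = (x⬝u) z + (x⬝z) u -
  (x⬝z)(x⬝u) u = z`.
* `prim_iff`: `Prim v ↔ ∀ prime q, ∃ j, ¬ q ∣ v j`. (→): `v ⬝ u = 1`. (←): the ideal generated by
  the `v j` is principal, generated by `g`; if `g` is not a unit some prime divides it (also for
  `g = 0`); so `1` is in the span: `Ideal.mem_span_range_iff_exists_fun` or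
  `Finset.gcd_eq_sum`... .
* `prim_add`: `i, k ∈ t`, `i ≠ k`, `δ ≠ 0`; `y` vanishes off `t`; no prime divides `δ` and all `y j`.
  Put `z_k = 0` if `y k ≠ 0`, `z_k = 1` otherwise; `w = y k + δ z_k ≠ 0`. Let `z_i` be the product
  of the primes which divide `w` but not `y i` (`w.natAbs.primeFactors.filter`), `z_j = 0` for
  `j ≠ i, k`. Let `q` be a prime dividing all entries of `y + δ z`. Then `q ∣ w`. If `q ∤ y i`, then
  `q ∣ z_i`, so `q ∤ y i + δ z_i`, contradiction. If `q ∣ y i`, then `q ∤ z_i` (a product of primes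
  different from `q`), and `q ∣ δ z_i`, so `q ∣ δ`, so `q ∣ y j` for all `j`, contradiction.
  Conclude with `prim_iff`, replacing `u` by its restriction to `t`.
-/

set_option autoImplicit false
set_option linter.unusedSectionVars false
set_option linter.unusedVariables false

namespace Pool.Agent.Lib.MP_05cdf2_gt.C
open Matrix

variable {n : Type*} [Fintype n] [DecidableEq n]

theorem symm_surj (x z u : n → ℤ) (h : x ⬝ᵥ u = 1) :
    ∃ S : Matrix n n ℤ, S.IsSymm ∧ x ᵥ* S = z ∧
      ∀ i, u i = 0 → z i = 0 → (∀ j, S i j = 0) ∧ (∀ j, S j i = 0) := by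
  refine ⟨Matrix.of fun i j => u i * z j + z i * u j - (x ⬝ᵥ z) * (u i * u j), ?_, ?_, ?_⟩
  · ext i j
    simp only [Matrix.transpose_apply, Matrix.of_apply]
    ring
  · funext j
    simp only [Matrix.vecMul, dotProduct, Matrix.of_apply]
    have e : ∀ i, x i * (u i * z j + z i * u j - (∑ l, x l * z l) * (u i * u j)) =
        (x i * u i) * z j + (x i * z i) * u j - (x i * u i) * ((∑ l, x l * z l) * u j) := by
      intro i; ring
    simp only [e, Finset.sum_sub_distrib, Finset.sum_add_distrib, ← Finset.sum_mul]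
    have h' : ∑ i, x i * u i = 1 := h
    rw [h']
    ring
  · intro i hu hz
    constructor
    · intro j
      simp only [Matrix.of_apply, hu, hz]
      ring
    · intro j
      simp only [Matrix.of_apply, hu, hz]
      ring

theorem prim_iff {ι : Type*} [Fintype ι] (v : ι → ℤ) :
    Prim v ↔ ∀ q : ℕ, q.Prime → ∃ j, ¬ (q : ℤ) ∣ v j := by
  constructor
  · rintro ⟨u, hu⟩ q hq
    by_contra hno
    have hno' : ∀ j, (q : ℤ) ∣ v j := fun j => by
      by_contra hj
      exact hno ⟨j, hj⟩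
    have h1 : (q : ℤ) ∣ 1 := by
      rw [← hu]
      exact Finset.dvd_sum fun j _ => (hno' j).mul_right _
    have h2 : q ∣ 1 := by exact_mod_cast h1
    exact hq.one_lt.ne' (Nat.dvd_one.1 h2)
  · intro h
    obtain ⟨g, hg⟩ := (IsPrincipalIdealRing.principal (Ideal.span (Set.range v))).principal
    have hgv : ∀ j, g ∣ v j := by
      intro j
      have h1 : v j ∈ Ideal.span (Set.range v) := Ideal.subset_span ⟨j, rfl⟩
      rw [hg] at h1
      exact Ideal.mem_span_singleton.1 h1
    have hg1 : g.natAbs = 1 := by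
      by_contra hne
      obtain ⟨q, hq, hqg⟩ := Nat.exists_prime_and_dvd hne
      obtain ⟨j, hj⟩ := h q hq
      exact hj ((Int.natCast_dvd.2 hqg).trans (hgv j))
    have hmem : (1 : ℤ) ∈ Ideal.span (Set.range v) := by
      rw [hg]
      exact Ideal.mem_span_singleton.2 (Int.isUnit_iff_natAbs_eq.2 hg1).dvd
    obtain ⟨c, hc⟩ := (Ideal.mem_span_range_iff_exists_fun).1 hmem
    refine ⟨c, ?_⟩
    rw [← hc]
    simp only [dotProduct, mul_comm]

theorem prim_add (t : Finset n) (i k : n) (hi : i ∈ t) (hk : k ∈ t) (hik : i ≠ k) (δ : ℤ)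
    (hδ : δ ≠ 0) (y : n → ℤ) (hy : ∀ j, j ∉ t → y j = 0)
    (h : ∀ q : ℕ, q.Prime → (q : ℤ) ∣ δ → ∃ j, ¬ (q : ℤ) ∣ y j) :
    ∃ z : n → ℤ, (∀ j, j ∉ t → z j = 0) ∧
      ∃ u : n → ℤ, (∀ j, j ∉ t → u j = 0) ∧ (y + δ • z) ⬝ᵥ u = 1 := by
  classical
  obtain ⟨zk, hzk⟩ : ∃ zk : ℤ, y k + δ * zk ≠ 0 := by
    by_cases h0 : y k = 0
    · exact ⟨1, by rw [h0]; simpa using hδ⟩
    · exact ⟨0, by simpa using h0⟩
  set w : ℤ := y k + δ * zk with hw
  set F : Finset ℕ := w.natAbs.primeFactors.filter (fun q => ¬ (q : ℤ) ∣ y i) with hF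
  set zi : ℤ := ∏ q ∈ F, (q : ℤ) with hzi
  set z : n → ℤ := fun j => if j = i then zi else if j = k then zk else 0 with hz
  have hzi' : z i = zi := by simp [hz]
  have hzk' : z k = zk := by
    rw [hz]
    simp only
    rw [if_neg hik.symm, if_pos trivial]
  have hzt : ∀ j, j ∉ t → z j = 0 := by
    intro j hj
    rw [hz]
    simp only
    rw [if_neg (fun e => hj (by rw [e]; exact hi)), if_neg (fun e => hj (by rw [e]; exact hk))]
  have hp : Prim (y + δ • z) := by
    rw [prim_iff]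
    intro q hq
    by_contra hno
    have hno' : ∀ j, (q : ℤ) ∣ y j + δ * z j := fun j => by
      by_contra hj
      exact hno ⟨j, by simpa using hj⟩
    have hqw : (q : ℤ) ∣ w := by
      have := hno' k
      rw [hzk'] at this
      exact this
    by_cases hqi : (q : ℤ) ∣ y i
    · have h1 : (q : ℤ) ∣ δ * zi := by
        have := hno' i
        rw [hzi'] at this
        exact (Int.dvd_add_right hqi).1 this
      have hqp : Prime (q : ℤ) := Nat.prime_iff_prime_int.1 hq
      rcases hqp.dvd_or_dvd h1 with h2 | h2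
      · obtain ⟨j, hj⟩ := h q hq h2
        exact hj ((Int.dvd_add_left (h2.mul_right (z j))).1 (hno' j))
      · obtain ⟨p, hpF, hqp'⟩ := (hqp.dvd_finsetProd_iff _).1 h2
        rw [hF, Finset.mem_filter] at hpF
        have h3 : q ∣ p := by exact_mod_cast hqp'
        have h4 : q = p := (Nat.prime_dvd_prime_iff_eq hq (Nat.prime_of_mem_primeFactors hpF.1)).1 h3
        exact hpF.2 (h4 ▸ hqi)
    · have hqF : q ∈ F := by
        rw [hF, Finset.mem_filter, Nat.mem_primeFactors]
        exact ⟨⟨hq, Int.natCast_dvd.1 hqw, fun e => hzk (Int.natAbs_eq_zero.1 e)⟩, hqi⟩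
      have h1 : (q : ℤ) ∣ zi := Finset.dvd_prod_of_mem (fun q : ℕ => (q : ℤ)) hqF
      have h2 := hno' i
      rw [hzi'] at h2
      exact hqi ((Int.dvd_add_left (h1.mul_left δ)).1 h2)
  obtain ⟨u, hu⟩ := hp
  refine ⟨z, hzt, fun j => if j ∈ t then u j else 0, fun j hj => if_neg hj, ?_⟩
  rw [← hu]
  simp only [dotProduct]
  apply Finset.sum_congr rfl
  intro j _
  by_cases hj : j ∈ t
  · rw [if_pos hj]
  · rw [if_neg hj]
    have : (y + δ • z) j = 0 := by
      simp [hy j hj, hzt j hj]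
    rw [this, zero_mul, zero_mul]

end Pool.Agent.Lib.MP_05cdf2_gt.C
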