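import Pool.Agent.Lib.MP_05cdf2_gt.C.Defs

/-!
MP_05cdf2_gt, stream (C), JOB C_UlBasic: elementary facts about `UL` and `Lam`.
Proofs: `fromBlocks_multiply`; `BP.of_mem`, `BP.inv_of'`, `BP.map` with `c = 1`.
* `UL.neg`: conjugation by `fromBlocks 1 0 0 (-1)` maps `fromBlocks A B C D` to
  `fromBlocks A (-B) (-C) D`, `UM S` to `UM (-S)`, `LM S` to `LM (-S)`.
* `wS`: `UM S * LM (-T) * UM S = fromBlocks 0 S (-T) 0` if `S * T = 1`, `T * S = 1`.
* `Lam_mul_U`: `Lam i a b c d * UM (single i i t) = Lam i a (b + t*a) c (d + t*c)`, etc.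
-/

set_option autoImplicit false
set_option linter.unusedSectionVars false
set_option linter.unusedVariables false

namespace Pool.Agent.Lib.MP_05cdf2_gt.C
open Matrix

variable {n : Type*} [Fintype n] [DecidableEq n]

theorem UL.mul {k m : ℕ} {M N : Matrix (n ⊕ n) (n ⊕ n) ℤ} (hM : UL k M) (hN : UL m N) :
    UL (k + m) (M * N) := BP.mul hM hN

theorem UL.mono {k m : ℕ} {M : Matrix (n ⊕ n) (n ⊕ n) ℤ} (hM : UL k M) (h : k ≤ m) : UL m M :=
  BP.mono hM h

theorem ul_U {S : Matrix n n ℤ} (hS : S.IsSymm) : UL 1 (UM S) := by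
  exact BP.of_mem ⟨S, hS, Or.inl rfl⟩

theorem ul_L {S : Matrix n n ℤ} (hS : S.IsSymm) : UL 1 (LM S) := by
  exact BP.of_mem ⟨S, hS, Or.inr rfl⟩

theorem UM_mul_UM (S T : Matrix n n ℤ) : UM S * UM T = UM (S + T) := by
  unfold UM
  rw [fromBlocks_multiply]
  simp [add_comm]

theorem LM_mul_LM (S T : Matrix n n ℤ) : LM S * LM T = LM (S + T) := by
  unfold LM
  rw [fromBlocks_multiply]
  simp

theorem UM_zero : UM (0 : Matrix n n ℤ) = 1 := by
  unfold UM
  exact fromBlocks_one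

theorem LM_zero : LM (0 : Matrix n n ℤ) = 1 := by
  unfold LM
  exact fromBlocks_one

theorem ulBasic_gen_inv : ∀ y ∈ ULS n, ∃ z ∈ ULS n, y * z = 1 ∧ z * y = 1 := by
  rintro y ⟨S, hS, rfl | rfl⟩
  · refine ⟨UM (-S), ⟨-S, hS.neg, Or.inl rfl⟩, ?_, ?_⟩
    · rw [UM_mul_UM, add_neg_cancel, UM_zero]
    · rw [UM_mul_UM, neg_add_cancel, UM_zero]
  · refine ⟨LM (-S), ⟨-S, hS.neg, Or.inr rfl⟩, ?_, ?_⟩
    · rw [LM_mul_LM, add_neg_cancel, LM_zero]
    · rw [LM_mul_LM, neg_add_cancel, LM_zero]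

/-- conjugation by `diag(1, -1)` -/
def ulBasicConj (M : Matrix (n ⊕ n) (n ⊕ n) ℤ) : Matrix (n ⊕ n) (n ⊕ n) ℤ :=
  fromBlocks 1 0 0 (-1) * M * fromBlocks 1 0 0 (-1)

theorem ulBasicConj_blocks (A B C D : Matrix n n ℤ) :
    ulBasicConj (fromBlocks A B C D) = fromBlocks A (-B) (-C) D := by
  unfold ulBasicConj
  rw [fromBlocks_multiply, fromBlocks_multiply]
  simp

/-- inverses -/
theorem UL.inv {k : ℕ} {M M' : Matrix (n ⊕ n) (n ⊕ n) ℤ} (hM : UL k M) (h : M' * M = 1) :
    UL k M' := by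
  exact BP.inv_of (ulBasic_gen_inv (n := n)) hM h

theorem UL.neg {k : ℕ} {A B C D : Matrix n n ℤ} (h : UL k (fromBlocks A B C D)) :
    UL k (fromBlocks A (-B) (-C) D) := by
  rw [← ulBasicConj_blocks]
  have hsq : (fromBlocks 1 0 0 (-1) : Matrix (n ⊕ n) (n ⊕ n) ℤ) * fromBlocks 1 0 0 (-1) = 1 := by
    rw [fromBlocks_multiply]
    simp
  have h1 : ulBasicConj (1 : Matrix (n ⊕ n) (n ⊕ n) ℤ) = 1 := by
    unfold ulBasicConj
    rw [mul_one, hsq]
  have hmul : ∀ x y : Matrix (n ⊕ n) (n ⊕ n) ℤ,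
      ulBasicConj (x * y) = ulBasicConj x * ulBasicConj y := by
    intro x y
    unfold ulBasicConj
    calc fromBlocks 1 0 0 (-1) * (x * y) * fromBlocks 1 0 0 (-1)
        = fromBlocks 1 0 0 (-1) * x * 1 * y * fromBlocks 1 0 0 (-1) := by
          simp only [mul_one, mul_assoc]
      _ = fromBlocks 1 0 0 (-1) * x * fromBlocks 1 0 0 (-1) *
          (fromBlocks 1 0 0 (-1) * y * fromBlocks 1 0 0 (-1)) := by
          rw [← hsq]
          simp only [mul_assoc]
  have hgen : ∀ y ∈ ULS n, BP (ULS n) 1 (ulBasicConj y) := by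
    rintro y ⟨S, hS, rfl | rfl⟩
    · refine BP.of_mem ⟨-S, hS.neg, Or.inl ?_⟩
      unfold UM
      rw [ulBasicConj_blocks, neg_zero]
    · refine BP.of_mem ⟨-S, hS.neg, Or.inr ?_⟩
      unfold LM
      rw [ulBasicConj_blocks, neg_zero]
  have := BP.map (f := ulBasicConj) h1 hmul hgen h
  exact BP.mono this (by omega)

theorem ul_wS {S T : Matrix n n ℤ} (hS : S.IsSymm) (hT : T.IsSymm) (h : S * T = 1)
    (h' : T * S = 1) : UL 3 (fromBlocks 0 S (-T) 0) := by
  have e : fromBlocks 0 S (-T) 0 = UM S * LM (-T) * UM S := by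
    unfold UM LM
    rw [fromBlocks_multiply, fromBlocks_multiply]
    simp [h, h']
  rw [e]
  exact ((ul_U hS).mul (ul_L hT.neg)).mul (ul_U hS)

theorem lam_mul_U (i : n) (a b c d t : ℤ) :
    Lam i a b c d * UM (Matrix.single i i t) = Lam i a (b + t * a) c (d + t * c) := by
  unfold Lam UM
  rw [fromBlocks_multiply]
  congr 1
  · simp
  · rw [mul_one, add_mul, one_mul, single_mul_single_same, ← single_add, ← single_add]
    congr 1
    ring
  · simp
  · rw [mul_one, single_mul_single_same, add_left_comm, ← single_add]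
    congr 2
    ring

theorem lam_mul_L (i : n) (a b c d t : ℤ) :
    Lam i a b c d * LM (Matrix.single i i t) = Lam i (a + t * b) b (c + t * d) d := by
  unfold Lam LM
  rw [fromBlocks_multiply]
  congr 1
  · rw [mul_one, single_mul_single_same, add_assoc, ← single_add]
    congr 2
    ring
  · simp
  · rw [mul_one, add_mul, one_mul, single_mul_single_same, ← single_add, ← single_add]
    congr 1
    ring
  · simp

theorem L_mul_lam (i : n) (a b c d t : ℤ) :
    LM (Matrix.single i i t) * Lam i a b c d = Lam i a b (c + t * a) (d + t * b) := by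
  unfold Lam LM
  rw [fromBlocks_multiply]
  congr 1
  · simp
  · simp
  · rw [one_mul, mul_add, mul_one, single_mul_single_same, ← single_add, ← single_add]
    congr 1
    ring
  · rw [one_mul, single_mul_single_same, add_left_comm, ← single_add]
    congr 2
    ring

theorem lam_neg {k : ℕ} {i : n} {a b c d : ℤ} (h : UL k (Lam i a b c d)) :
    UL k (Lam i a (-b) (-c) d) := by
  have h1 := UL.neg h
  have e : ∀ x : ℤ, -Matrix.single i i x = Matrix.single i i (-x) := by
    intro x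
    ext r s
    simp only [Matrix.neg_apply, Matrix.single_apply]
    split_ifs <;> simp
  rw [e, e] at h1
  exact h1

end Pool.Agent.Lib.MP_05cdf2_gt.C
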