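import Pool.Agent.Lib.MP_05cdf2_gt.C.SpBasic
import Pool.Agent.Lib.MP_05cdf2_gt.C.UlBasic
import Pool.Agent.Lib.MP_05cdf2_gt.C.Surj

/-!
MP_05cdf2_gt, stream (C), JOB C_Step2: the second half of the reduction step.

`M` symplectic, `Std t M`, `i ≠ k` in `t`, row `inl i` of `M` is `e_{inl i}`. Let `(u; w)` be the row
`inr i`, supported in `t` (`std_cols`). `pairing` of the rows `inl i`, `inr i` gives `w i = 1`.
`T2`: symmetric, supported in `t`, `w T2 = e_k - u` (`symm_surj w (e_k - u) e_i`).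
`S3`: symmetric, supported in `t`, `e_k S3 = -(w - e_i)` and `e_i S3 = 0`
(`S3 = e_k zᵀ + z e_kᵀ - z_k e_k e_kᵀ`, `z = -(w - e_i)`, `z i = 0`; this is the matrix of `symm_surj`
for `x = u = e_k`; its last clause gives `S3 i j = 0` as `e_k i = 0`, `z i = 0`).
`T3`: symmetric, supported in `t`, `e_i T3 = -e_k` (`symm_surj e_i (-e_k) e_i`).
Then the row `inr i` of `M * LM T2` is `(e_k; w)`, of `M * LM T2 * UM S3` it is `(e_k; e_i)`, of
`M * LM T2 * UM S3 * LM T3` it is `(0; e_i)`; the row `inl i` is unchanged: `(e_i; 0) LM T = (e_i; 0)`,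
`(e_i; 0) UM S3 = (e_i; e_i S3) = (e_i; 0)`.
-/

set_option autoImplicit false
set_option linter.unusedSectionVars false
set_option linter.unusedVariables false

namespace Pool.Agent.Lib.MP_05cdf2_gt.C
open Matrix

variable {n : Type*} [Fintype n] [DecidableEq n]

theorem Step2_std {t : Finset n} {i : n} (hi : i ∈ t) {M : Matrix (n ⊕ n) (n ⊕ n) ℤ} (hs : Std t M)
    (h1 : M (Sum.inl i) = Pi.single (Sum.inl i) 1) (h2 : M (Sum.inr i) = Pi.single (Sum.inr i) 1) :
    Std (t.erase i) M := by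
  intro j hj
  by_cases hji : j = i
  · subst hji
    exact ⟨h1, h2⟩
  · exact hs j (fun h => hj (Finset.mem_erase.2 ⟨hji, h⟩))

theorem Step2_inl (i : n) : Sum.elim (Pi.single i 1 : n → ℤ) (0 : n → ℤ) = Pi.single (Sum.inl i) 1 := by
  funext r
  rcases r with j | j
  · simp [Pi.single_apply]
  · simp [Pi.single_apply]

theorem Step2_inr (i : n) : Sum.elim (0 : n → ℤ) (Pi.single i 1 : n → ℤ) = Pi.single (Sum.inr i) 1 := by
  funext r
  rcases r with j | j
  · simp [Pi.single_apply]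
  · simp [Pi.single_apply]

theorem step2 (t : Finset n) (i k : n) (hi : i ∈ t) (hk : k ∈ t) (hik : i ≠ k)
    (M : Matrix (n ⊕ n) (n ⊕ n) ℤ) (hM : M ∈ symplecticGroup n ℤ) (hs : Std t M)
    (h1 : M (Sum.inl i) = Pi.single (Sum.inl i) 1) :
    ∃ R : Matrix (n ⊕ n) (n ⊕ n) ℤ, UL 3 R ∧ Std (t.erase i) (M * R) := by
  set u : n → ℤ := fun j => M (Sum.inr i) (Sum.inl j) with hu
  set w : n → ℤ := fun j => M (Sum.inr i) (Sum.inr j) with hw
  have hsup : ∀ j, j ∉ t → u j = 0 ∧ w j = 0 := by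
    intro j hj
    exact std_cols hM hs j hj (Sum.inr i) (by simp)
      (by intro e; exact hj (Sum.inr_injective e ▸ hi))
  have hti : ∀ j, j ∉ t → j ≠ i := fun j hj e => hj (by rw [e]; exact hi)
  have htk : ∀ j, j ∉ t → j ≠ k := fun j hj e => hj (by rw [e]; exact hk)
  have hx : (fun j => M (Sum.inl i) (Sum.inl j)) = (Pi.single i 1 : n → ℤ) := by
    funext j
    rw [h1]
    simp [Pi.single_apply]
  have hy : (fun j => M (Sum.inl i) (Sum.inr j)) = (0 : n → ℤ) := by
    funext j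
    rw [h1]
    simp [Pi.single_apply]
  have hwi : w i = 1 := by
    have h2 := pairing hM (Sum.inl i) (Sum.inr i)
    rw [hx, hy, single_dotProduct, zero_dotProduct] at h2
    simp only [J, fromBlocks_apply₁₂, neg_apply, one_apply_eq, one_mul, sub_zero, neg_neg] at h2
    exact h2
  -- the three matrices
  obtain ⟨T2, hT2s, hT2, hT2z⟩ := symm_surj w (Pi.single k 1 - u) (Pi.single i 1)
    (by rw [dotProduct_single, hwi, mul_one])
  obtain ⟨S3, hS3s, hS3, hS3z⟩ := symm_surj (Pi.single k 1) (Pi.single i 1 - w) (Pi.single k 1)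
    (by rw [dotProduct_single]; simp)
  obtain ⟨T3, hT3s, hT3, hT3z⟩ := symm_surj (Pi.single i 1) (-Pi.single k 1) (Pi.single i 1)
    (by rw [dotProduct_single]; simp)
  have hT2t : ∀ j, j ∉ t → (∀ l, T2 j l = 0) ∧ (∀ l, T2 l j = 0) := by
    intro j hj
    apply hT2z
    · exact Pi.single_eq_of_ne (hti j hj) _
    · rw [Pi.sub_apply, Pi.single_eq_of_ne (htk j hj), (hsup j hj).1, sub_zero]
  have hS3t : ∀ j, j ∉ t → (∀ l, S3 j l = 0) ∧ (∀ l, S3 l j = 0) := by
    intro j hj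
    apply hS3z
    · exact Pi.single_eq_of_ne (htk j hj) _
    · rw [Pi.sub_apply, Pi.single_eq_of_ne (hti j hj), (hsup j hj).2, sub_zero]
  have hT3t : ∀ j, j ∉ t → (∀ l, T3 j l = 0) ∧ (∀ l, T3 l j = 0) := by
    intro j hj
    apply hT3z
    · exact Pi.single_eq_of_ne (hti j hj) _
    · rw [Pi.neg_apply, Pi.single_eq_of_ne (htk j hj), neg_zero]
  have hS3i : (Pi.single i 1 : n → ℤ) ᵥ* S3 = 0 := by
    funext l
    rw [single_one_vecMul]
    exact (hS3z i (Pi.single_eq_of_ne hik _) (by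
      rw [Pi.sub_apply, Pi.single_eq_same, hwi, sub_self])).1 l
  -- the products
  set M1 := M * LM T2 with hM1
  set M2 := M1 * UM S3 with hM2
  set M3 := M2 * LM T3 with hM3
  have a1 : M1 (Sum.inl i) = Sum.elim (Pi.single i 1 : n → ℤ) 0 := by
    rw [hM1, row_L, hx, hy, zero_vecMul, add_zero]
  have b1 : M1 (Sum.inr i) = Sum.elim (Pi.single k 1 : n → ℤ) w := by
    rw [hM1, row_L]
    have e : (fun j => M (Sum.inr i) (Sum.inl j)) + (fun j => M (Sum.inr i) (Sum.inr j)) ᵥ* T2 =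
        Pi.single k 1 := by
      rw [← hu, ← hw, hT2]
      abel
    rw [e]
  have a2 : M2 (Sum.inl i) = Sum.elim (Pi.single i 1 : n → ℤ) 0 := by
    rw [hM2, row_U, a1]
    simp only [Sum.elim_inl, Sum.elim_inr]
    have e : (fun j => (0 : n → ℤ) j) + (fun j => (Pi.single i 1 : n → ℤ) j) ᵥ* S3 = 0 := by
      have : (fun j => (Pi.single i 1 : n → ℤ) j) = (Pi.single i 1 : n → ℤ) := rfl
      rw [this, hS3i]
      rfl
    rw [e]
  have b2 : M2 (Sum.inr i) = Sum.elim (Pi.single k 1 : n → ℤ) (Pi.single i 1) := by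
    rw [hM2, row_U, b1]
    simp only [Sum.elim_inl, Sum.elim_inr]
    have e : (fun j => w j) + (fun j => (Pi.single k 1 : n → ℤ) j) ᵥ* S3 = Pi.single i 1 := by
      have : (fun j => (Pi.single k 1 : n → ℤ) j) = (Pi.single k 1 : n → ℤ) := rfl
      rw [this, hS3]
      funext j
      simp only [Pi.add_apply, Pi.sub_apply]
      ring
    rw [e]
  have a3 : M3 (Sum.inl i) = Pi.single (Sum.inl i) 1 := by
    rw [hM3, row_L, a2]
    simp only [Sum.elim_inl, Sum.elim_inr]
    rw [← Step2_inl]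
    have e : (fun j => (Pi.single i 1 : n → ℤ) j) + (fun j => (0 : n → ℤ) j) ᵥ* T3 = Pi.single i 1 := by
      have : (fun j => (0 : n → ℤ) j) = (0 : n → ℤ) := rfl
      rw [this, zero_vecMul, add_zero]
    rw [e]
  have b3 : M3 (Sum.inr i) = Pi.single (Sum.inr i) 1 := by
    rw [hM3, row_L, b2]
    simp only [Sum.elim_inl, Sum.elim_inr]
    rw [← Step2_inr]
    have e : (fun j => (Pi.single k 1 : n → ℤ) j) + (fun j => (Pi.single i 1 : n → ℤ) j) ᵥ* T3 = 0 := by
      have : (fun j => (Pi.single i 1 : n → ℤ) j) = (Pi.single i 1 : n → ℤ) := rfl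
      rw [this, hT3]
      funext j
      simp
    rw [e]
  refine ⟨LM T2 * UM S3 * LM T3, ?_, ?_⟩
  · exact (UL.mul (UL.mul (ul_L hT2s) (ul_U hS3s)) (ul_L hT3s))
  · have e : M * (LM T2 * UM S3 * LM T3) = M3 := by
      rw [hM3, hM2, hM1]
      simp only [Matrix.mul_assoc]
    rw [e]
    apply Step2_std hi _ a3 b3
    exact ((hs.mul_L hT2t).mul_U hS3t).mul_L hT3t

end Pool.Agent.Lib.MP_05cdf2_gt.C
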