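import Pool.Agent.Lib.MP_05cdf2_gt.C.Step1
import Pool.Agent.Lib.MP_05cdf2_gt.C.Step2

/-!
MP_05cdf2_gt, stream (C), JOB C_Red: reduction to `SL_2`.

* `step`: combine `step1` and `step2` (`UL.mem` and `Submonoid.mul_mem` for `M * R`).
* `red`: induction on `t.card`: if `t = {i0}` take `R = 1`; otherwise choose `i ∈ t`, `i ≠ i0`, apply
  `step` with `k = i0` and the induction hypothesis to `t.erase i`.
* `std_lam`: if `Std {i0} M` and `M` is symplectic then by `std_cols` the rows `inl i0`, `inr i0` are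
  supported on the indices `inl i0`, `inr i0`, so `M = Lam i0 a b c d`, and `pairing` of these rows
  gives `a d - b c = 1`.
* `red_all`: start with `t = univ` (`Std univ M` is vacuous).
-/

set_option autoImplicit false
set_option linter.unusedSectionVars false
set_option linter.unusedVariables false

namespace Pool.Agent.Lib.MP_05cdf2_gt.C
open Matrix

variable {n : Type*} [Fintype n] [DecidableEq n]

theorem step (t : Finset n) (i k : n) (hi : i ∈ t) (hk : k ∈ t) (hik : i ≠ k)
    (M : Matrix (n ⊕ n) (n ⊕ n) ℤ) (hM : M ∈ symplecticGroup n ℤ) (hs : Std t M) :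
    ∃ R : Matrix (n ⊕ n) (n ⊕ n) ℤ, UL 6 R ∧ Std (t.erase i) (M * R) := by
  obtain ⟨R1, hR1, hs1, hrow⟩ := step1 t i k hi hk hik M hM hs
  obtain ⟨R2, hR2, hs2⟩ := step2 t i k hi hk hik (M * R1) (Submonoid.mul_mem _ hM hR1.mem) hs1 hrow
  refine ⟨R1 * R2, BP.mul (k := 3) (m := 3) hR1 hR2, ?_⟩
  rw [← Matrix.mul_assoc]
  exact hs2

theorem Red_aux (i0 : n) (m : ℕ) : ∀ (t : Finset n), t.card = m → i0 ∈ t → ∀ (M : Matrix (n ⊕ n) (n ⊕ n) ℤ),
    M ∈ symplecticGroup n ℤ → Std t M →
    ∃ R : Matrix (n ⊕ n) (n ⊕ n) ℤ, UL (6 * (t.card - 1)) R ∧ Std {i0} (M * R) := by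
  induction m with
  | zero =>
    intro t ht hi0
    rw [Finset.card_eq_zero] at ht
    rw [ht] at hi0
    exact absurd hi0 (Finset.notMem_empty _)
  | succ m ih =>
    intro t ht hi0 M hM hs
    by_cases h : ∃ i ∈ t, i ≠ i0
    · obtain ⟨i, hi, hne⟩ := h
      obtain ⟨R1, hR1, hs1⟩ := step t i i0 hi hi0 hne M hM hs
      have hc : (t.erase i).card = t.card - 1 := Finset.card_erase_of_mem hi
      have hi0' : i0 ∈ t.erase i := Finset.mem_erase.2 ⟨hne.symm, hi0⟩
      have hpos : 0 < (t.erase i).card := Finset.card_pos.2 ⟨i0, hi0'⟩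
      obtain ⟨R2, hR2, hs2⟩ := ih (t.erase i) (by omega) hi0' (M * R1) (Submonoid.mul_mem _ hM hR1.mem) hs1
      refine ⟨R1 * R2, (BP.mul hR1 hR2).mono ?_, ?_⟩
      · rw [hc]
        omega
      · rw [← Matrix.mul_assoc]
        exact hs2
    · have ht1 : t = {i0} := by
        ext i
        rw [Finset.mem_singleton]
        constructor
        · intro hi
          by_contra hne
          exact h ⟨i, hi, hne⟩
        · rintro rfl
          exact hi0
      refine ⟨1, BP.one' _, ?_⟩
      rw [Matrix.mul_one, ← ht1]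
      exact hs

theorem red (i0 : n) (t : Finset n) (hi0 : i0 ∈ t) (M : Matrix (n ⊕ n) (n ⊕ n) ℤ)
    (hM : M ∈ symplecticGroup n ℤ) (hs : Std t M) :
    ∃ R : Matrix (n ⊕ n) (n ⊕ n) ℤ, UL (6 * (t.card - 1)) R ∧ Std {i0} (M * R) := by
  exact Red_aux i0 t.card t rfl hi0 M hM hs

theorem std_lam (i0 : n) (M : Matrix (n ⊕ n) (n ⊕ n) ℤ) (hM : M ∈ symplecticGroup n ℤ)
    (hs : Std {i0} M) : ∃ a b c d : ℤ, a * d - b * c = 1 ∧ M = Lam i0 a b c d := by
  have hL : ∀ i, i ≠ i0 → M (Sum.inl i) = Pi.single (Sum.inl i) 1 := fun i hi =>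
    (hs i (by rw [Finset.mem_singleton]; exact hi)).1
  have hR : ∀ i, i ≠ i0 → M (Sum.inr i) = Pi.single (Sum.inr i) 1 := fun i hi =>
    (hs i (by rw [Finset.mem_singleton]; exact hi)).2
  have hcol : ∀ j, j ≠ i0 → (M (Sum.inl i0) (Sum.inl j) = 0 ∧ M (Sum.inl i0) (Sum.inr j) = 0) ∧
      (M (Sum.inr i0) (Sum.inl j) = 0 ∧ M (Sum.inr i0) (Sum.inr j) = 0) := by
    intro j hj
    have hj' : j ∉ ({i0} : Finset n) := by rw [Finset.mem_singleton]; exact hj
    exact ⟨std_cols hM hs j hj' (Sum.inl i0) (fun h => hj (Sum.inl.inj h).symm) Sum.inl_ne_inr,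
      std_cols hM hs j hj' (Sum.inr i0) Sum.inr_ne_inl (fun h => hj (Sum.inr.inj h).symm)⟩
  refine ⟨M (Sum.inl i0) (Sum.inl i0), M (Sum.inl i0) (Sum.inr i0), M (Sum.inr i0) (Sum.inl i0),
    M (Sum.inr i0) (Sum.inr i0), ?_, ?_⟩
  · have h := pairing hM (Sum.inl i0) (Sum.inr i0)
    have h1 : (fun j => M (Sum.inl i0) (Sum.inl j)) ⬝ᵥ (fun j => M (Sum.inr i0) (Sum.inr j)) =
        M (Sum.inl i0) (Sum.inl i0) * M (Sum.inr i0) (Sum.inr i0) := by
      unfold dotProduct
      exact Finset.sum_eq_single i0 (fun j _ hj => by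
        have h0 : M (Sum.inl i0) (Sum.inl j) * M (Sum.inr i0) (Sum.inr j) = 0 := by rw [(hcol j hj).1.1, zero_mul]
        exact h0)
        (fun h => absurd (Finset.mem_univ _) h)
    have h2 : (fun j => M (Sum.inl i0) (Sum.inr j)) ⬝ᵥ (fun j => M (Sum.inr i0) (Sum.inl j)) =
        M (Sum.inl i0) (Sum.inr i0) * M (Sum.inr i0) (Sum.inl i0) := by
      unfold dotProduct
      exact Finset.sum_eq_single i0 (fun j _ hj => by
        have h0 : M (Sum.inl i0) (Sum.inr j) * M (Sum.inr i0) (Sum.inl j) = 0 := by rw [(hcol j hj).1.2, zero_mul]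
        exact h0)
        (fun h => absurd (Finset.mem_univ _) h)
    have h3 : J n ℤ (Sum.inl i0) (Sum.inr i0) = -1 := by
      unfold J
      rw [fromBlocks_apply₁₂, Matrix.neg_apply, one_apply_eq]
    rw [h1, h2, h3, neg_neg] at h
    exact h
  · unfold Lam
    ext r s
    rcases r with r | r <;> rcases s with s | s
    · rw [fromBlocks_apply₁₁, Matrix.add_apply]
      by_cases hr : r = i0
      · rw [hr]
        by_cases hs' : s = i0
        · rw [hs', one_apply_eq, single_apply_same]
          ring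
        · rw [(hcol s hs').1.1, one_apply_ne (Ne.symm hs'), single_apply_of_ne]
          · ring
          · exact fun h => hs' h.2.symm
      · rw [hL r hr, single_apply_of_ne]
        · rw [add_zero, one_apply, Pi.single_apply]
          by_cases hrs : r = s
          · rw [hrs, if_pos rfl, if_pos rfl]
          · rw [if_neg hrs, if_neg (fun h => hrs (Sum.inl.inj h).symm)]
        · exact fun h => hr h.1.symm
    · rw [fromBlocks_apply₁₂]
      by_cases hr : r = i0
      · rw [hr]
        by_cases hs' : s = i0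
        · rw [hs', single_apply_same]
        · rw [(hcol s hs').1.2, single_apply_of_ne]
          exact fun h => hs' h.2.symm
      · rw [hL r hr, single_apply_of_ne]
        · rw [Pi.single_apply, if_neg Sum.inr_ne_inl]
        · exact fun h => hr h.1.symm
    · rw [fromBlocks_apply₂₁]
      by_cases hr : r = i0
      · rw [hr]
        by_cases hs' : s = i0
        · rw [hs', single_apply_same]
        · rw [(hcol s hs').2.1, single_apply_of_ne]
          exact fun h => hs' h.2.symm
      · rw [hR r hr, single_apply_of_ne]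
        · rw [Pi.single_apply, if_neg Sum.inl_ne_inr]
        · exact fun h => hr h.1.symm
    · rw [fromBlocks_apply₂₂, Matrix.add_apply]
      by_cases hr : r = i0
      · rw [hr]
        by_cases hs' : s = i0
        · rw [hs', one_apply_eq, single_apply_same]
          ring
        · rw [(hcol s hs').2.2, one_apply_ne (Ne.symm hs'), single_apply_of_ne]
          · ring
          · exact fun h => hs' h.2.symm
      · rw [hR r hr, single_apply_of_ne]
        · rw [add_zero, one_apply, Pi.single_apply]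
          by_cases hrs : r = s
          · rw [hrs, if_pos rfl, if_pos rfl]
          · rw [if_neg hrs, if_neg (fun h => hrs (Sum.inr.inj h).symm)]
        · exact fun h => hr h.1.symm

theorem red_all (i0 : n) (M : Matrix (n ⊕ n) (n ⊕ n) ℤ) (hM : M ∈ symplecticGroup n ℤ) :
    ∃ R : Matrix (n ⊕ n) (n ⊕ n) ℤ, UL (6 * (Fintype.card n - 1)) R ∧
      ∃ a b c d : ℤ, a * d - b * c = 1 ∧ M * R = Lam i0 a b c d := by
  obtain ⟨R, hR, hs⟩ := red i0 Finset.univ (Finset.mem_univ _) M hM (fun i hi => absurd (Finset.mem_univ _) hi)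
  rw [Finset.card_univ] at hR
  exact ⟨R, hR, std_lam i0 (M * R) (Submonoid.mul_mem _ hM hR.mem) hs⟩

end Pool.Agent.Lib.MP_05cdf2_gt.C
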