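import Pool.Agent.Lib.MP_05cdf2_gt.C.Surj

/-!
MP_05cdf2_gt, stream (C), JOB C_Row: make `y + x S` primitive.

`x, y` vanish off `t`, `(x; y)` is primitive. If `x = 0`, take `S = 0` (then `y ⬝ v = 1` for some
`v`; restrict `v` to `t`). Otherwise let `δ` be the gcd of the entries of `x`:
`x = δ • x'` with `x' ⬝ u = 1`, `u` vanishing off `t`, `δ ≠ 0` (`Finset.gcd` /
`Finset.extract_gcd`, or `prim_iff`). No prime divides `δ` and all `y j` (it would divide
`x ⬝ u + y ⬝ v = 1`). `prim_add` gives `z`; `symm_surj x' z u` gives `S` with `x' S = z`, so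
`y + x S = y + δ z`. `S i j = 0` for `i ∉ t`.
-/

set_option autoImplicit false
set_option linter.unusedSectionVars false
set_option linter.unusedVariables false

namespace Pool.Agent.Lib.MP_05cdf2_gt.C
open Matrix

variable {n : Type*} [Fintype n] [DecidableEq n]

theorem Row_restrict (t : Finset n) (y v : n → ℤ) (hy : ∀ j, j ∉ t → y j = 0) :
    y ⬝ᵥ (fun j => if j ∈ t then v j else 0) = y ⬝ᵥ v := by
  unfold dotProduct
  refine Finset.sum_congr rfl fun j _ => ?_
  by_cases hj : j ∈ t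
  · simp only [hj, if_true]
  · simp only [hj, if_false, hy j hj, mul_zero, zero_mul]

theorem Row_prime_not_dvd_one (q : ℕ) (hq : q.Prime) (h : (q : ℤ) ∣ 1) : False := by
  have h1 : (q : ℤ) ∣ ((1 : ℕ) : ℤ) := by exact_mod_cast h
  have h2 : q ∣ 1 := Int.natCast_dvd_natCast.mp h1
  exact hq.one_lt.ne' (Nat.dvd_one.mp h2)

theorem exists_symm_prim (t : Finset n) (i k : n) (hi : i ∈ t) (hk : k ∈ t) (hik : i ≠ k)
    (x y : n → ℤ) (hx : ∀ j, j ∉ t → x j = 0) (hy : ∀ j, j ∉ t → y j = 0)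
    (h : ∃ u v : n → ℤ, x ⬝ᵥ u + y ⬝ᵥ v = 1) :
    ∃ S : Matrix n n ℤ, S.IsSymm ∧ (∀ i, i ∉ t → (∀ j, S i j = 0) ∧ (∀ j, S j i = 0)) ∧
      ∃ u : n → ℤ, (∀ j, j ∉ t → u j = 0) ∧ (y + x ᵥ* S) ⬝ᵥ u = 1 := by
  obtain ⟨u, v, huv⟩ := h
  by_cases hx0 : x = 0
  · refine ⟨0, Matrix.isSymm_zero, fun i _ => ⟨fun j => rfl, fun j => rfl⟩,
      fun j => if j ∈ t then v j else 0, fun j hj => if_neg hj, ?_⟩
    rw [Matrix.vecMul_zero, add_zero, Row_restrict t y v hy]
    rw [hx0, zero_dotProduct, zero_add] at huv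
    exact huv
  · have hne : (Finset.univ : Finset n).Nonempty := ⟨i, Finset.mem_univ i⟩
    obtain ⟨x', hx', hg⟩ := Finset.extract_gcd x hne
    set δ : ℤ := Finset.univ.gcd x with hδdef
    have hδ : δ ≠ 0 := by
      intro h0
      apply hx0
      funext j
      have := hx' j (Finset.mem_univ j)
      rw [h0, zero_mul] at this
      exact this
    have hxx : x = δ • x' := by
      funext j
      rw [Pi.smul_apply, smul_eq_mul]
      exact hx' j (Finset.mem_univ j)
    have hx't : ∀ j, j ∉ t → x' j = 0 := by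
      intro j hj
      have h1 := hx' j (Finset.mem_univ j)
      rw [hx j hj] at h1
      rcases mul_eq_zero.mp h1.symm with h2 | h2
      · exact absurd h2 hδ
      · exact h2
    have hP : Prim x' := by
      rw [prim_iff]
      intro q hq
      by_contra hcon
      push Not at hcon
      have h1 : (q : ℤ) ∣ Finset.univ.gcd x' := Finset.dvd_gcd fun j _ => hcon j
      rw [hg] at h1
      exact Row_prime_not_dvd_one q hq h1
    obtain ⟨u0, hu0⟩ := hP
    rw [← Row_restrict t x' u0 hx't] at hu0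
    have hh : ∀ q : ℕ, q.Prime → (q : ℤ) ∣ δ → ∃ j, ¬ (q : ℤ) ∣ y j := by
      intro q hq hqδ
      by_contra hcon
      push Not at hcon
      have h1 : (q : ℤ) ∣ x ⬝ᵥ u + y ⬝ᵥ v := by
        refine dvd_add ?_ ?_
        · unfold dotProduct
          refine Finset.dvd_sum fun j _ => ?_
          rw [hx' j (Finset.mem_univ j)]
          exact Dvd.dvd.mul_right (Dvd.dvd.mul_right hqδ _) _
        · unfold dotProduct
          exact Finset.dvd_sum fun j _ => Dvd.dvd.mul_right (hcon j) _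
      rw [huv] at h1
      exact Row_prime_not_dvd_one q hq h1
    obtain ⟨z, hz, u2, hu2, hp⟩ := prim_add t i k hi hk hik δ hδ y hy hh
    obtain ⟨S, hS, hxS, hS0⟩ := symm_surj x' z _ hu0
    refine ⟨S, hS, ?_, u2, hu2, ?_⟩
    · intro l hl
      exact hS0 l (if_neg hl) (hz l hl)
    · rw [hxx, Matrix.smul_vecMul, hxS]
      exact hp

end Pool.Agent.Lib.MP_05cdf2_gt.C
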