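import Pool.Agent.Lib.MP_05cdf2_gt.C.Row

/-!
MP_05cdf2_gt, stream (C), JOB C_SpBasic: symplectic matrices, row vectors.

`symplecticGroup n ℤ`: `M ∈ symplecticGroup ↔ M * J * Mᵀ = J` (`SymplecticGroup.mem_iff`), also
`Mᵀ * J * M = J` (`SymplecticGroup.mem_iff'`). `J = fromBlocks 0 (-1) 1 0`.
* `U_mem`, `L_mem`: `fromBlocks_multiply`.
* `row_U`, `row_L`: the row `r` of `M * UM S` is `(x; y + x S)` if the row `r` of `M` is `(x; y)`
  (`x = fun j => M r (inl j)`, `y = fun j => M r (inr j)`).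
* `pairing`: the entries of `M * J * Mᵀ = J`.
* `std_cols`: `M` symplectic, `Std t M`. Then for `i ∉ t` the columns of index `inl i`, `inr i`
  vanish outside of the rows `inl i`, `inr i`: for every row `r`,
  `M r (inr i) = ± (M J Mᵀ) r (inl i)` since the row `inl i` of `M` is a basis vector; and
  `J r (inl i) = 0` unless `r = inr i`.
* `row_unimod`: every row of `M` is primitive, `M * M⁻¹ = 1` (`M⁻¹ = - J Mᵀ J`, or `pairing` of the
  rows `inl i` and `inr i`: `ω(row (inl i), row (inr i)) = ±1`).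
-/

set_option autoImplicit false
set_option linter.unusedSectionVars false
set_option linter.unusedVariables false

namespace Pool.Agent.Lib.MP_05cdf2_gt.C
open Matrix

variable {n : Type*} [Fintype n] [DecidableEq n]

theorem U_mem {S : Matrix n n ℤ} (hS : S.IsSymm) : UM S ∈ symplecticGroup n ℤ := by
  unfold UM
  rw [SymplecticGroup.fromBlocks_mem_iff]
  refine ⟨by simp, ?_, by simp⟩
  simp [hS.eq]

theorem L_mem {S : Matrix n n ℤ} (hS : S.IsSymm) : LM S ∈ symplecticGroup n ℤ := by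
  unfold LM
  rw [SymplecticGroup.fromBlocks_mem_iff]
  refine ⟨?_, by simp, by simp⟩
  simp [hS.eq]

theorem UL.mem {k : ℕ} {M : Matrix (n ⊕ n) (n ⊕ n) ℤ} (h : UL k M) : M ∈ symplecticGroup n ℤ := by
  refine BP.ind (P := fun _ x => x ∈ symplecticGroup n ℤ) (one_mem _) (fun _ _ _ _ h => h) ?_ h
  rintro k y x ⟨S, hS, rfl | rfl⟩ _ hx
  · exact mul_mem (U_mem hS) hx
  · exact mul_mem (L_mem hS) hx

theorem row_U (M : Matrix (n ⊕ n) (n ⊕ n) ℤ) (S : Matrix n n ℤ) (r : n ⊕ n) :
    (M * UM S) r = Sum.elim (fun j => M r (Sum.inl j))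
      ((fun j => M r (Sum.inr j)) + (fun j => M r (Sum.inl j)) ᵥ* S) := by
  funext a
  rcases a with j | j
  · simp only [UM, Matrix.mul_apply, Fintype.sum_sum_type, fromBlocks_apply₁₁, fromBlocks_apply₂₁,
      Sum.elim_inl, Matrix.one_apply, Matrix.zero_apply, mul_ite, mul_one, mul_zero,
      Finset.sum_ite_eq', Finset.mem_univ, if_true, Finset.sum_const_zero, add_zero]
  · simp only [UM, Matrix.mul_apply, Fintype.sum_sum_type, fromBlocks_apply₁₂, fromBlocks_apply₂₂,
      Sum.elim_inr, Matrix.one_apply, mul_ite, mul_one, mul_zero, Pi.add_apply, Matrix.vecMul, dotProduct,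
      Finset.sum_ite_eq', Finset.mem_univ, if_true]
    ring

theorem row_L (M : Matrix (n ⊕ n) (n ⊕ n) ℤ) (S : Matrix n n ℤ) (r : n ⊕ n) :
    (M * LM S) r = Sum.elim ((fun j => M r (Sum.inl j)) + (fun j => M r (Sum.inr j)) ᵥ* S)
      (fun j => M r (Sum.inr j)) := by
  funext a
  rcases a with j | j
  · simp only [LM, Matrix.mul_apply, Fintype.sum_sum_type, fromBlocks_apply₁₁, fromBlocks_apply₂₁,
      Sum.elim_inl, Matrix.one_apply, mul_ite, mul_one, mul_zero, Pi.add_apply, Matrix.vecMul, dotProduct,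
      Finset.sum_ite_eq', Finset.mem_univ, if_true]
  · simp only [LM, Matrix.mul_apply, Fintype.sum_sum_type, fromBlocks_apply₁₂, fromBlocks_apply₂₂,
      Sum.elim_inr, Matrix.one_apply, Matrix.zero_apply, mul_ite, mul_one, mul_zero,
      Finset.sum_ite_eq', Finset.mem_univ, if_true, Finset.sum_const_zero, zero_add]

/-- `x ⬝ w - y ⬝ u` for the rows `(x; y)` and `(u; w)` -/
theorem pairing {M : Matrix (n ⊕ n) (n ⊕ n) ℤ} (hM : M ∈ symplecticGroup n ℤ) (r s : n ⊕ n) :
    (fun j => M r (Sum.inl j)) ⬝ᵥ (fun j => M s (Sum.inr j)) -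
      (fun j => M r (Sum.inr j)) ⬝ᵥ (fun j => M s (Sum.inl j)) = - J n ℤ r s := by
  have h := congrFun (congrFun (SymplecticGroup.mem_iff.mp hM) r) s
  have e : (M * J n ℤ * Mᵀ) r s = (fun j => M r (Sum.inr j)) ⬝ᵥ (fun j => M s (Sum.inl j)) -
      (fun j => M r (Sum.inl j)) ⬝ᵥ (fun j => M s (Sum.inr j)) := by
    have e1 : ∀ j, (M * J n ℤ) r (Sum.inl j) = M r (Sum.inr j) := by
      intro j
      simp [Matrix.mul_apply, Fintype.sum_sum_type, J, Matrix.one_apply]
    have e2 : ∀ j, (M * J n ℤ) r (Sum.inr j) = - M r (Sum.inl j) := by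
      intro j
      simp [Matrix.mul_apply, Fintype.sum_sum_type, J, Matrix.one_apply]
    rw [Matrix.mul_apply, Fintype.sum_sum_type]
    simp only [e1, e2, Matrix.transpose_apply, dotProduct]
    simp [Finset.sum_neg_distrib, sub_eq_add_neg]
  rw [e] at h
  rw [← h]
  ring

theorem std_cols {t : Finset n} {M : Matrix (n ⊕ n) (n ⊕ n) ℤ} (hM : M ∈ symplecticGroup n ℤ)
    (hs : Std t M) (i : n) (hi : i ∉ t) (r : n ⊕ n) (h1 : r ≠ Sum.inl i) (h2 : r ≠ Sum.inr i) :
    M r (Sum.inl i) = 0 ∧ M r (Sum.inr i) = 0 := by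
  obtain ⟨ha, hb⟩ := hs i hi
  have p1 := pairing hM r (Sum.inl i)
  have p2 := pairing hM r (Sum.inr i)
  have e1 : (fun j => M (Sum.inl i) (Sum.inr j)) = 0 := by
    funext j; rw [ha]; simp
  have e2 : (fun j => M (Sum.inl i) (Sum.inl j)) = Pi.single i 1 := by
    funext j; rw [ha]; simp [Pi.single_apply]
  have e3 : (fun j => M (Sum.inr i) (Sum.inr j)) = Pi.single i 1 := by
    funext j; rw [hb]; simp [Pi.single_apply]
  have e4 : (fun j => M (Sum.inr i) (Sum.inl j)) = 0 := by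
    funext j; rw [hb]; simp
  rw [e1, e2, dotProduct_zero, dotProduct_single] at p1
  rw [e3, e4, dotProduct_zero, dotProduct_single] at p2
  have j1 : J n ℤ r (Sum.inl i) = 0 := by
    rcases r with r | r
    · simp [J]
    · have : r ≠ i := fun h => h2 (by rw [h])
      simp [J, this]
  have j2 : J n ℤ r (Sum.inr i) = 0 := by
    rcases r with r | r
    · have : r ≠ i := fun h => h1 (by rw [h])
      simp [J, this]
    · simp [J]
  rw [j1] at p1
  rw [j2] at p2
  constructor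
  · linarith
  · linarith

theorem row_unimod {M : Matrix (n ⊕ n) (n ⊕ n) ℤ} (hM : M ∈ symplecticGroup n ℤ) (r : n ⊕ n) :
    ∃ u v : n → ℤ, (fun j => M r (Sum.inl j)) ⬝ᵥ u + (fun j => M r (Sum.inr j)) ⬝ᵥ v = 1 := by
  rcases r with i | i
  · have p := pairing hM (Sum.inl i) (Sum.inr i)
    have j1 : J n ℤ (Sum.inl i) (Sum.inr i) = -1 := by simp [J]
    rw [j1] at p
    refine ⟨fun j => M (Sum.inr i) (Sum.inr j), - fun j => M (Sum.inr i) (Sum.inl j), ?_⟩
    rw [dotProduct_neg]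
    linarith
  · have p := pairing hM (Sum.inr i) (Sum.inl i)
    have j1 : J n ℤ (Sum.inr i) (Sum.inl i) = 1 := by simp [J]
    rw [j1] at p
    refine ⟨- fun j => M (Sum.inl i) (Sum.inr j), fun j => M (Sum.inl i) (Sum.inl j), ?_⟩
    rw [dotProduct_neg]
    linarith

/-- multiplying on the right by `UM S`, `LM S` with `S` supported in `t` preserves `Std t` -/
theorem Std.mul_U {t : Finset n} {M : Matrix (n ⊕ n) (n ⊕ n) ℤ} (hs : Std t M) {S : Matrix n n ℤ}
    (hS : ∀ i, i ∉ t → (∀ j, S i j = 0) ∧ (∀ j, S j i = 0)) : Std t (M * UM S) := by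
  intro i hi
  obtain ⟨ha, hb⟩ := hs i hi
  obtain ⟨h1, h2⟩ := hS i hi
  constructor
  · rw [row_U, ha]
    funext a
    rcases a with j | j
    · simp
    · have e : (fun j => (Pi.single (Sum.inl i) 1 : n ⊕ n → ℤ) (Sum.inl j)) = Pi.single i 1 := by
        funext j; simp [Pi.single_apply]
      rw [e]
      simp [h1]
  · rw [row_U, hb]
    funext a
    rcases a with j | j
    · simp
    · have e : (fun j => (Pi.single (Sum.inr i) 1 : n ⊕ n → ℤ) (Sum.inl j)) = 0 := by
        funext j; simp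
      rw [e]
      simp

theorem Std.mul_L {t : Finset n} {M : Matrix (n ⊕ n) (n ⊕ n) ℤ} (hs : Std t M) {S : Matrix n n ℤ}
    (hS : ∀ i, i ∉ t → (∀ j, S i j = 0) ∧ (∀ j, S j i = 0)) : Std t (M * LM S) := by
  intro i hi
  obtain ⟨ha, hb⟩ := hs i hi
  obtain ⟨h1, h2⟩ := hS i hi
  constructor
  · rw [row_L, ha]
    funext a
    rcases a with j | j
    · have e : (fun j => (Pi.single (Sum.inl i) 1 : n ⊕ n → ℤ) (Sum.inr j)) = 0 := by
        funext j; simp
      rw [e]
      simp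
    · simp
  · rw [row_L, hb]
    funext a
    rcases a with j | j
    · have e : (fun j => (Pi.single (Sum.inr i) 1 : n ⊕ n → ℤ) (Sum.inr j)) = Pi.single i 1 := by
        funext j; simp [Pi.single_apply]
      rw [e]
      simp [h1]
    · simp

end Pool.Agent.Lib.MP_05cdf2_gt.C
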