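import Pool.Agent.Lib.MP_05cdf2_gt.C.Mult

/-!
MP_05cdf2_gt, stream (C), JOB C_SqOne: if `g ∣ f^2 - 1` then all matrices with first row `(f, g)`
are products of at most `60` elementary matrices.

Put `g1 = gcd(g, f-1)`. If `g1 = 0`, then `g = 0`, `f = 1` and `FR.one` applies. Otherwise
`g = g1 * g2`, `f - 1 = g1 * u` with `gcd(g2, u) = 1`; `g1 * g2 ∣ g1 * u * (f + 1)` gives
`g2 ∣ u * (f+1)`, so `g2 ∣ f + 1`. By `FR.modeq` and `FR.one`: `FR 3 f g1`; by `FR.modeq` and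
`FR.neg_one`: `FR 9 f g2`. `FR.mul` gives `FR (3 + 9 + 41) f (g1*g2)`.
-/

set_option autoImplicit false
set_option linter.unusedSectionVars false
set_option linter.unusedVariables false

namespace Pool.Agent.Lib.MP_05cdf2_gt.C
open Matrix

theorem fr_sq {f g : ℤ} (h : g ∣ f ^ 2 - 1) : FR 60 f g := by
  rcases Nat.eq_zero_or_pos (Int.gcd g (f - 1)) with h0 | h0
  · rw [Int.gcd_eq_zero_iff] at h0
    have hf : f = 1 := by linarith [h0.2]
    rw [hf]
    exact (FR.one g).mono (by norm_num)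
  · obtain ⟨g2, u, hgu, hg, hu⟩ := Int.exists_gcd_one h0
    have hg1 : ((Int.gcd g (f - 1) : ℕ) : ℤ) ≠ 0 := by exact_mod_cast h0.ne'
    generalize ((Int.gcd g (f - 1) : ℕ) : ℤ) = g1 at hg hu hg1
    have h1 : g2 ∣ u * (f + 1) := by
      have h2 : g1 * g2 ∣ g1 * (u * (f + 1)) := by
        have h3 : g1 * (u * (f + 1)) = f ^ 2 - 1 := by
          have h4 : f ^ 2 - 1 = (f - 1) * (f + 1) := by ring
          rw [h4, hu]
          ring
        rw [h3, mul_comm g1 g2, ← hg]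
        exact h
      exact (mul_dvd_mul_iff_left hg1).1 h2
    have h2 : g2 ∣ f + 1 := (Int.isCoprime_iff_gcd_eq_one.2 hgu).dvd_of_dvd_mul_left h1
    have h3 : FR 3 f g1 := FR.modeq (a' := 1) (by rw [hu]; exact dvd_mul_left _ _) (FR.one g1)
    have h4 : FR 9 f g2 := FR.modeq (a' := -1) (by rw [sub_neg_eq_add]; exact h2) (FR.neg_one g2)
    rw [hg, mul_comm g2 g1]
    exact (FR.mul h3 h4).mono (by norm_num)

end Pool.Agent.Lib.MP_05cdf2_gt.C
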