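import Pool.Agent.Lib.MP_05cdf2_gt.C.SpBasic
import Pool.Agent.Lib.MP_05cdf2_gt.C.UlBasic

/-!
MP_05cdf2_gt, stream (C), JOB C_Step1: the first half of the reduction step.

`M` symplectic, `Std t M`, `i ≠ k` in `t`. The row `inl i` of `M` is `(x; y)`, supported in `t`
(`std_cols`), unimodular (`row_unimod`). By `exists_symm_prim` there is `S1` (symmetric, supported in
`t`) with `y' = y + x S1` primitive, `y' ⬝ u = 1`, `u` supported in `t`; by `symm_surj y' (e_i - x) u`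
there is `T1` with `y' T1 = e_i - x`, supported in `t`; by `symm_surj e_i (-y') e_i` there is `S2` with
`e_i S2 = -y'`, supported in `t`. Then the row `inl i` of `M * UM S1 * LM T1 * UM S2` is `e_{inl i}`.
-/

set_option autoImplicit false
set_option linter.unusedSectionVars false
set_option linter.unusedVariables false

namespace Pool.Agent.Lib.MP_05cdf2_gt.C
open Matrix

variable {n : Type*} [Fintype n] [DecidableEq n]

theorem step1 (t : Finset n) (i k : n) (hi : i ∈ t) (hk : k ∈ t) (hik : i ≠ k)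
    (M : Matrix (n ⊕ n) (n ⊕ n) ℤ) (hM : M ∈ symplecticGroup n ℤ) (hs : Std t M) :
    ∃ R : Matrix (n ⊕ n) (n ⊕ n) ℤ, UL 3 R ∧ Std t (M * R) ∧
      (M * R) (Sum.inl i) = Pi.single (Sum.inl i) 1 := by
  have hxy : ∀ j, j ∉ t → M (Sum.inl i) (Sum.inl j) = 0 ∧ M (Sum.inl i) (Sum.inr j) = 0 := by
    intro j hj
    refine std_cols hM hs j hj (Sum.inl i) (fun h => hj ?_) (fun h => ?_)
    · rw [← Sum.inl.inj h]
      exact hi
    · cases h
  obtain ⟨S1, hS1, hS1t, u, hu, hu1⟩ := exists_symm_prim t i k hi hk hik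
    (fun j => M (Sum.inl i) (Sum.inl j)) (fun j => M (Sum.inl i) (Sum.inr j))
    (fun j hj => (hxy j hj).1) (fun j hj => (hxy j hj).2) (row_unimod hM (Sum.inl i))
  obtain ⟨x, hx⟩ : ∃ x : n → ℤ, x = fun j => M (Sum.inl i) (Sum.inl j) := ⟨_, rfl⟩
  obtain ⟨y', hy'⟩ : ∃ y' : n → ℤ, y' = (fun j => M (Sum.inl i) (Sum.inr j)) +
    (fun j => M (Sum.inl i) (Sum.inl j)) ᵥ* S1 := ⟨_, rfl⟩
  have hij : ∀ j, j ∉ t → j ≠ i := fun j hj h => hj (h ▸ hi)
  have hx0 : ∀ j, j ∉ t → x j = 0 := by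
    intro j hj
    rw [hx]
    exact (hxy j hj).1
  have hy0 : ∀ j, j ∉ t → y' j = 0 := by
    intro j hj
    rw [hy', Pi.add_apply, (hxy j hj).2, zero_add, vecMul, dotProduct]
    refine Finset.sum_eq_zero fun l _ => ?_
    rw [(hS1t j hj).2 l, mul_zero]
  have hr1 : (M * UM S1) (Sum.inl i) = Sum.elim x y' := by
    rw [row_U, hx, hy']
  obtain ⟨T1, hT1, hT1x, hT1t⟩ := symm_surj y' (Pi.single i 1 - x) u (by rw [hy']; exact hu1)
  have hr2 : (M * UM S1 * LM T1) (Sum.inl i) = Sum.elim (Pi.single i 1) y' := by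
    rw [row_L]
    have h1 : (fun j => (M * UM S1) (Sum.inl i) (Sum.inl j)) = x := by
      funext j
      rw [hr1]
      rfl
    have h2 : (fun j => (M * UM S1) (Sum.inl i) (Sum.inr j)) = y' := by
      funext j
      rw [hr1]
      rfl
    rw [h1, h2, hT1x, add_sub_cancel]
  have hei : (Pi.single i 1 : n → ℤ) ⬝ᵥ Pi.single i 1 = 1 := by
    rw [single_one_dotProduct, Pi.single_eq_same]
  obtain ⟨S2, hS2, hS2x, hS2t⟩ := symm_surj (Pi.single i 1) (-y') (Pi.single i 1) hei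
  have hr3 : (M * UM S1 * LM T1 * UM S2) (Sum.inl i) = Sum.elim (Pi.single i 1) 0 := by
    rw [row_U]
    have h1 : (fun j => (M * UM S1 * LM T1) (Sum.inl i) (Sum.inl j)) = Pi.single i 1 := by
      funext j
      rw [hr2]
      rfl
    have h2 : (fun j => (M * UM S1 * LM T1) (Sum.inl i) (Sum.inr j)) = y' := by
      funext j
      rw [hr2]
      rfl
    rw [h1, h2, hS2x, add_neg_cancel]
  have hT1t' : ∀ j, j ∉ t → (∀ l, T1 j l = 0) ∧ (∀ l, T1 l j = 0) := by
    intro j hj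
    refine hT1t j (hu j hj) ?_
    rw [Pi.sub_apply, Pi.single_eq_of_ne (hij j hj), hx0 j hj, sub_zero]
  have hS2t' : ∀ j, j ∉ t → (∀ l, S2 j l = 0) ∧ (∀ l, S2 l j = 0) := by
    intro j hj
    refine hS2t j (Pi.single_eq_of_ne (hij j hj) _) ?_
    rw [Pi.neg_apply, hy0 j hj, neg_zero]
  have hR : M * (UM S1 * LM T1 * UM S2) = M * UM S1 * LM T1 * UM S2 := by
    simp only [Matrix.mul_assoc]
  refine ⟨UM S1 * LM T1 * UM S2, ?_, ?_, ?_⟩
  · exact ((ul_U hS1).mul (ul_L hT1)).mul (ul_U hS2)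
  · rw [hR]
    exact ((hs.mul_U hS1t).mul_L hT1t').mul_U hS2t'
  · rw [hR, hr3]
    funext j
    rcases j with j | j
    · by_cases hj : j = i
      · rw [hj]
        simp
      · rw [Sum.elim_inl, Pi.single_eq_of_ne hj, Pi.single_eq_of_ne]
        intro h
        exact hj (Sum.inl.inj h)
    · rw [Sum.elim_inr, Pi.zero_apply, Pi.single_eq_of_ne]
      intro h
      cases h

end Pool.Agent.Lib.MP_05cdf2_gt.C
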